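import Pool.Agent.Work.MP_62db8e_nt.Sw.Smear

set_option autoImplicit false

/-! From a splitting of `{1..2m}` to a splitting of `{1..2n}` with almost the same relative overlap. -/

namespace Pool.Agent.Work.MP_62db8e_nt.Sw

open Finset

theorem ovl_sdiff (A B R : Finset ℤ) (y : ℤ) : ovl (A \ R) (B ∪ R) y ≤ ovl A B y + R.card := by
  classical
  unfold ovl
  have h1 : ((A \ R) ×ˢ (B ∪ R)).filter (fun p => p.1 - p.2 = y) ⊆
      (A ×ˢ B).filter (fun p => p.1 - p.2 = y) ∪ R.image (fun r => (r + y, r)) := by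
    intro p hp
    obtain ⟨h2, h3⟩ := Finset.mem_filter.1 hp
    obtain ⟨h4, h5⟩ := Finset.mem_product.1 h2
    have h6 := (Finset.mem_sdiff.1 h4).1
    rw [Finset.mem_union]
    rcases Finset.mem_union.1 h5 with h7 | h7
    · exact Or.inl (Finset.mem_filter.2 ⟨Finset.mem_product.2 ⟨h6, h7⟩, h3⟩)
    · refine Or.inr (Finset.mem_image.2 ⟨p.2, h7, Prod.ext ?_ rfl⟩)
      show p.2 + y = p.1
      omega
  exact (Finset.card_le_card h1).trans ((Finset.card_union_le _ _).trans
    (Nat.add_le_add_left Finset.card_image_le _))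

theorem ovl_union (A B R : Finset ℤ) (y : ℤ) : ovl (A ∪ R) (B \ R) y ≤ ovl A B y + R.card := by
  classical
  unfold ovl
  have h1 : ((A ∪ R) ×ˢ (B \ R)).filter (fun p => p.1 - p.2 = y) ⊆
      (A ×ˢ B).filter (fun p => p.1 - p.2 = y) ∪ R.image (fun r => (r, r - y)) := by
    intro p hp
    obtain ⟨h2, h3⟩ := Finset.mem_filter.1 hp
    obtain ⟨h4, h5⟩ := Finset.mem_product.1 h2
    have h6 := (Finset.mem_sdiff.1 h5).1
    rw [Finset.mem_union]
    rcases Finset.mem_union.1 h4 with h7 | h7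
    · exact Or.inl (Finset.mem_filter.2 ⟨Finset.mem_product.2 ⟨h7, h6⟩, h3⟩)
    · refine Or.inr (Finset.mem_image.2 ⟨p.1, h7, Prod.ext rfl ?_⟩)
      show p.1 - y = p.2
      omega
  exact (Finset.card_le_card h1).trans ((Finset.card_union_le _ _).trans
    (Nat.add_le_add_left Finset.card_image_le _))

/-- from a 0-1 function to a splitting into halves -/
theorem exists_split (n : ℕ) (w : ℤ → ℝ)
    (hw : ∀ i ∈ Finset.Icc (1 : ℤ) (2 * n), w i = 0 ∨ w i = 1) (R δ : ℝ) (hR0 : 0 ≤ R)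
    (hR : ∀ k : ℤ, k ≠ 0 → SF (Finset.Icc 1 (2 * n)) k w ≤ R)
    (hδ : |∑ i ∈ Finset.Icc (1 : ℤ) (2 * n), w i - n| ≤ δ) :
    ∃ A B : Finset ℤ, Disjoint A B ∧ A ∪ B = Finset.Icc 1 (2 * (n : ℤ)) ∧ A.card = n ∧ B.card = n ∧
      ∀ y, (ovl A B y : ℝ) ≤ R + δ := by
  classical
  set I : Finset ℤ := Finset.Icc 1 (2 * n) with hI
  have hcI : I.card = 2 * n := by
    rw [hI, Int.card_Icc]
    omega
  set A := I.filter (fun i => w i = 1) with hA
  set B := I \ A with hB
  have hAI : A ⊆ I := Finset.filter_subset _ _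
  have hcA : (A.card : ℝ) = ∑ i ∈ I, w i := by
    rw [hA, Finset.card_filter]
    push_cast
    refine Finset.sum_congr rfl fun i hi => ?_
    rcases hw i hi with h | h <;> rw [h] <;> norm_num
  have hcB : B.card = 2 * n - A.card := by
    rw [hB, Finset.card_sdiff_of_subset hAI, hcI]
  have hcA2 : A.card ≤ 2 * n := by
    rw [← hcI]
    exact Finset.card_le_card hAI
  have hov : ∀ y, (ovl A B y : ℝ) ≤ R := by
    intro y
    by_cases hy : y = 0
    · have h1 : ovl A B y = 0 := by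
        unfold ovl
        rw [Finset.card_eq_zero, Finset.eq_empty_iff_forall_notMem]
        intro p hp
        obtain ⟨h2, h3⟩ := Finset.mem_filter.1 hp
        obtain ⟨h4, h5⟩ := Finset.mem_product.1 h2
        have h6 : p.1 = p.2 := by omega
        rw [hB] at h5
        exact (Finset.mem_sdiff.1 h5).2 (h6 ▸ h4)
      rw [h1]
      simpa using hR0
    · refine le_trans (le_of_eq ?_) (hR (-y) (neg_ne_zero.2 hy))
      unfold SF
      have h1 : ovl A B y =
          ((I.filter (fun i => i + -y ∈ I)).filter (fun i => w i = 1 ∧ w (i + -y) = 0)).card := by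
        unfold ovl
        refine Finset.card_bij (fun p _ => p.1) ?_ ?_ ?_
        · intro p hp
          obtain ⟨h2, h3⟩ := Finset.mem_filter.1 hp
          obtain ⟨h4, h5⟩ := Finset.mem_product.1 h2
          have h6 : p.1 + -y = p.2 := by omega
          have h7 := Finset.mem_filter.1 h4
          have h8 := Finset.mem_sdiff.1 h5
          have h9 : w p.2 = 0 := by
            rcases hw p.2 h8.1 with h | h
            · exact h
            · exact absurd (Finset.mem_filter.2 ⟨h8.1, h⟩) h8.2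
          rw [Finset.mem_filter, Finset.mem_filter, h6]
          exact ⟨⟨h7.1, h8.1⟩, h7.2, h9⟩
        · intro p hp q hq h
          have h3 := (Finset.mem_filter.1 hp).2
          have h3' := (Finset.mem_filter.1 hq).2
          exact Prod.ext h (by omega)
        · intro i hi
          obtain ⟨h2, h3, h4⟩ := Finset.mem_filter.1 hi
          obtain ⟨h5, h6⟩ := Finset.mem_filter.1 h2
          refine ⟨(i, i + -y), ?_, rfl⟩
          rw [Finset.mem_filter, Finset.mem_product]
          refine ⟨⟨Finset.mem_filter.2 ⟨h5, h3⟩, Finset.mem_sdiff.2 ⟨h6, fun h => ?_⟩⟩, ?_⟩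
          · have := (Finset.mem_filter.1 h).2
            have h4' : w (i + -y) = 0 := h4
            have h7 : w (i + -y) = 1 := this
            rw [h4'] at h7
            exact zero_ne_one h7
          · show i - (i + -y) = y
            ring
      rw [h1, Finset.card_filter]
      push_cast
      refine Finset.sum_congr rfl fun i hi => ?_
      obtain ⟨h5, h6⟩ := Finset.mem_filter.1 hi
      rcases hw i h5 with h | h <;> rcases hw _ h6 with h' | h' <;> rw [h, h'] <;> norm_num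
  rw [← hcA, abs_le] at hδ
  rcases le_or_gt n A.card with hle | hgt
  · obtain ⟨Q, hQ1, hQ2⟩ := Finset.exists_subset_card_eq (Nat.sub_le A.card n)
    refine ⟨A \ Q, B ∪ Q, ?_, ?_, ?_, ?_, ?_⟩
    · rw [Finset.disjoint_left]
      intro x h1 h2
      rw [Finset.mem_sdiff] at h1
      rcases Finset.mem_union.1 h2 with h3 | h3
      · exact (Finset.mem_sdiff.1 h3).2 h1.1
      · exact h1.2 h3
    · show A \ Q ∪ (B ∪ Q) = I
      ext x
      have h1 := @hAI x
      have h2 := @hQ1 x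
      rw [hB, Finset.mem_union, Finset.mem_union, Finset.mem_sdiff, Finset.mem_sdiff]
      tauto
    · rw [Finset.card_sdiff_of_subset hQ1, hQ2]
      omega
    · rw [Finset.card_union_of_disjoint, hcB, hQ2]
      · omega
      · rw [Finset.disjoint_left]
        intro x h1 h2
        exact (Finset.mem_sdiff.1 h1).2 (hQ1 h2)
    · intro y
      have h1 := ovl_sdiff A B Q y
      rw [hQ2] at h1
      have h2 : (ovl (A \ Q) (B ∪ Q) y : ℝ) ≤ ovl A B y + ((A.card - n : ℕ) : ℝ) := by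
        exact_mod_cast h1
      rw [Nat.cast_sub hle] at h2
      linarith [hov y]
  · have hle : n - A.card ≤ B.card := by omega
    obtain ⟨Q, hQ1, hQ2⟩ := Finset.exists_subset_card_eq hle
    refine ⟨A ∪ Q, B \ Q, ?_, ?_, ?_, ?_, ?_⟩
    · rw [Finset.disjoint_left]
      intro x h1 h2
      rw [Finset.mem_sdiff] at h2
      rcases Finset.mem_union.1 h1 with h3 | h3
      · exact (Finset.mem_sdiff.1 h2.1).2 h3
      · exact h2.2 h3
    · show A ∪ Q ∪ (B \ Q) = I
      ext x
      have h1 := @hAI x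
      have h2 := @hQ1 x
      rw [hB, Finset.mem_sdiff] at h2
      rw [hB, Finset.mem_union, Finset.mem_union, Finset.mem_sdiff, Finset.mem_sdiff]
      tauto
    · rw [Finset.card_union_of_disjoint, hQ2]
      · omega
      · rw [Finset.disjoint_left]
        intro x h1 h2
        exact (Finset.mem_sdiff.1 (hQ1 h2)).2 h1
    · rw [Finset.card_sdiff_of_subset hQ1, hQ2]
      omega
    · intro y
      have h1 := ovl_union A B Q y
      rw [hQ2] at h1
      have h2 : (ovl (A ∪ Q) (B \ Q) y : ℝ) ≤ ovl A B y + ((n - A.card : ℕ) : ℝ) := by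
        exact_mod_cast h1
      rw [Nat.cast_sub hgt.le] at h2
      linarith [hov y]

/-- the main inequality with the free parameters `D`, `s` -/
theorem main_ineq (m n D M : ℕ) (hm : 0 < m) (hn : 0 < n) (A B : Finset ℤ)
    (hAB : A ∪ B = Finset.Icc 1 (2 * (m : ℤ))) (hd : Disjoint A B) (hA : A.card = m)
    (hB : B.card = m) (hM : ∀ k, ovl A B k ≤ M) (s : ℝ) (hs0 : 0 < s) (hs1 : s ≤ 1) :
    ∃ A' B' : Finset ℤ, Disjoint A' B' ∧ A' ∪ B' = Finset.Icc 1 (2 * (n : ℤ)) ∧ A'.card = n ∧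
      B'.card = n ∧ ∀ y, (ovl A' B' y : ℝ) ≤
        (M : ℝ) / m * ((n + D : ℝ) * ((2 * D + 2) / (2 * D + 1)) ^ 2) + D +
          3 * (Real.log (8 * n + 2) / s + 2 * n * s) := by
  obtain ⟨p, hp1, hp2, hp3⟩ := smear m n D M hm hn A B hAB hd hA hB hM
  obtain ⟨w, hw1, hw2, hw3⟩ := round n p hp1 s hs0 hs1
  have hlog : 0 ≤ Real.log (8 * n + 2) := Real.log_nonneg (by
    have : (0 : ℝ) ≤ n := Nat.cast_nonneg n
    linarith)
  have hE : 0 ≤ Real.log (8 * n + 2) / s + 2 * n * s := by positivity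
  obtain ⟨A', B', h1, h2, h3, h4, h5⟩ := exists_split n w hw1
    ((M : ℝ) / m * ((n + D : ℝ) * ((2 * D + 2) / (2 * D + 1)) ^ 2) +
      2 * (Real.log (8 * n + 2) / s + 2 * n * s))
    (D + (Real.log (8 * n + 2) / s + 2 * n * s)) (by positivity)
    (fun k hk => (hw2 k hk).trans (by linarith [hp2 k])) (by
      calc |∑ i ∈ Finset.Icc (1 : ℤ) (2 * n), w i - n| =
          |(∑ i ∈ Finset.Icc (1 : ℤ) (2 * n), w i - ∑ i ∈ Finset.Icc (1 : ℤ) (2 * n), p i) +
            (∑ i ∈ Finset.Icc (1 : ℤ) (2 * n), p i - n)| := by congr 1; ring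
        _ ≤ _ := (abs_add_le _ _).trans (by linarith))
  exact ⟨A', B', h1, h2, h3, h4, fun y => (h5 y).trans (by linarith)⟩

/-- the error term for large `n` -/
theorem num (n : ℕ) (hn : 600 ≤ n) (x : ℝ) (hx0 : 0 ≤ x) (hx1 : x ≤ 1) :
    ∃ (D : ℕ) (s : ℝ), 0 < s ∧ s ≤ 1 ∧
      x * ((n + D : ℝ) * ((2 * D + 2) / (2 * D + 1)) ^ 2) + D +
          3 * (Real.log (8 * n + 2) / s + 2 * n * s) ≤ x * n + 12 * √(n * Real.log n) := by
  have hnr : (600 : ℝ) ≤ n := by exact_mod_cast hn
  set D := Nat.sqrt n with hD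
  have hD1 : D * D ≤ n := Nat.sqrt_le n
  have hD2 : n ≤ D * D + 2 * D := by
    have h := Nat.lt_succ_sqrt n
    have h' : n < (D + 1) * (D + 1) := h
    nlinarith
  have hD1r : (D : ℝ) * D ≤ n := by exact_mod_cast hD1
  have hD2r : (n : ℝ) ≤ D * D + 2 * D := by exact_mod_cast hD2
  have hD0 : (0 : ℝ) ≤ D := Nat.cast_nonneg D
  -- the deterministic part
  have h1 : (n + D : ℝ) * ((2 * D + 2) / (2 * D + 1)) ^ 2 ≤ n + 2 * D + 3 := by
    rw [div_pow, ← mul_div_assoc, div_le_iff₀ (by positivity)]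
    have h2 : (n + 2 * D + 3 : ℝ) * (2 * D + 1) ^ 2 - (n + D) * (2 * D + 2) ^ 2 =
        (D + 3) * (4 * D ^ 2 + 4 * D + 1) - (n + D) * (4 * D + 3) := by ring
    have h3 : (n + D : ℝ) * (4 * D + 3) ≤ (D * D + 3 * D) * (4 * D + 3) :=
      mul_le_mul_of_nonneg_right (by linarith) (by positivity)
    have h4 : (D * D + 3 * D : ℝ) * (4 * D + 3) ≤ (D + 3) * (4 * D ^ 2 + 4 * D + 1) := by
      nlinarith
    linarith
  have h2 : x * ((n + D : ℝ) * ((2 * D + 2) / (2 * D + 1)) ^ 2) ≤ x * n + (2 * D + 3) := by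
    calc x * ((n + D : ℝ) * ((2 * D + 2) / (2 * D + 1)) ^ 2) ≤ x * (n + 2 * D + 3) :=
          mul_le_mul_of_nonneg_left h1 hx0
      _ = x * n + x * (2 * D + 3) := by ring
      _ ≤ x * n + 1 * (2 * D + 3) :=
          add_le_add le_rfl (mul_le_mul_of_nonneg_right hx1 (by positivity))
      _ = x * n + (2 * D + 3) := by ring
  -- logarithms
  set l := Real.log n with hl
  set La := Real.log (8 * n + 2) with hLa
  have hn0 : (0 : ℝ) < n := by linarith
  have hl4 : 4 ≤ l := by
    rw [hl, Real.le_log_iff_exp_le hn0]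
    have h3 : Real.exp 4 = Real.exp 1 ^ 4 := by
      rw [← Real.exp_nat_mul]
      norm_num
    rw [h3]
    have h4 := Real.exp_one_lt_d9
    have h5 : Real.exp 1 ^ 4 ≤ 2.7182818286 ^ 4 :=
      pow_le_pow_left₀ (Real.exp_pos 1).le h4.le 4
    have h6 : (2.7182818286 : ℝ) ^ 4 ≤ 600 := by norm_num
    linarith
  have hLa1 : La ≤ 4 / 3 * l := by
    have h3 : (8 * (n : ℝ) + 2) ^ 3 ≤ (n : ℝ) ^ 4 := by
      have h4 : 8 * (n : ℝ) + 2 ≤ 8.01 * n := by linarith
      calc (8 * (n : ℝ) + 2) ^ 3 ≤ (8.01 * n) ^ 3 := pow_le_pow_left₀ (by positivity) h4 3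
        _ = 8.01 ^ 3 * (n : ℝ) ^ 3 := by ring
        _ ≤ n * (n : ℝ) ^ 3 := mul_le_mul_of_nonneg_right (by norm_num; linarith) (by positivity)
        _ = (n : ℝ) ^ 4 := by ring
    have h5 := Real.log_le_log (by positivity) h3
    rw [Real.log_pow, Real.log_pow] at h5
    push_cast at h5
    linarith
  have hLa0 : 0 < La := Real.log_pos (by linarith)
  have hLa2 : La ≤ 2 * n := by
    have := Real.log_le_sub_one_of_pos hn0
    linarith
  -- the parameter
  set s := √(La / (2 * n)) with hs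
  have hs0 : 0 < s := Real.sqrt_pos.2 (by positivity)
  have hs1 : s ≤ 1 := by
    have h7 : La / (2 * n) ≤ 1 := by
      rw [div_le_one (by positivity)]
      exact hLa2
    calc s = √(La / (2 * n)) := hs
      _ ≤ √1 := Real.sqrt_le_sqrt h7
      _ = 1 := Real.sqrt_one
  have hs2 : s ^ 2 = La / (2 * n) := Real.sq_sqrt (by positivity)
  have h3 : La / s = 2 * n * s := by
    rw [div_eq_iff hs0.ne']
    have : 2 * n * s * s = 2 * n * s ^ 2 := by ring
    rw [this, hs2]
    field_simp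
  have hQ : √(n * l) ^ 2 = n * l := Real.sq_sqrt (by positivity)
  set Q := √(n * l) with hQdef
  have hQ0 : 0 ≤ Q := Real.sqrt_nonneg _
  have h4 : 2 * n * s ≤ 1.633 * Q := by
    refine (pow_le_pow_iff_left₀ (by positivity) (by positivity) two_ne_zero).1 ?_
    calc (2 * n * s) ^ 2 = 2 * n * La := by
          rw [mul_pow, hs2]
          field_simp
      _ ≤ 2 * n * (4 / 3 * l) := mul_le_mul_of_nonneg_left hLa1 (by positivity)
      _ = 8 / 3 * (n * l) := by ring
      _ ≤ 1.633 ^ 2 * (n * l) := mul_le_mul_of_nonneg_right (by norm_num) (by positivity)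
      _ = (1.633 * Q) ^ 2 := by rw [mul_pow, hQ]
  have h5 : (D : ℝ) ≤ Q / 2 := by
    refine (pow_le_pow_iff_left₀ (by positivity) (by positivity) two_ne_zero).1 ?_
    calc (D : ℝ) ^ 2 = D * D := by ring
      _ ≤ n := hD1r
      _ = n * 4 / 4 := by ring
      _ ≤ n * l / 4 := by
        have := mul_le_mul_of_nonneg_left hl4 hn0.le
        linarith
      _ = (Q / 2) ^ 2 := by rw [div_pow, hQ]; norm_num
  have h6 : (40 : ℝ) ≤ Q := by
    refine (pow_le_pow_iff_left₀ (by norm_num) hQ0 two_ne_zero).1 ?_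
    rw [hQ]
    nlinarith
  refine ⟨D, s, hs0, hs1, ?_⟩
  rw [h3]
  linarith

end Pool.Agent.Work.MP_62db8e_nt.Sw
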