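import Pool.Agent.Work.MP_62db8e_nt.Sw.Band
import Pool.Agent.Work.MP_62db8e_nt.Sw.Fin

set_option autoImplicit false

/-! Step functions: from a splitting of `{1..2m}` to a step function with `R` steps and mass `R/2`
(error `207/40`), and from a step function to splittings. -/

namespace Pool.Agent.Work.MP_62db8e_nt.Sw

open Finset

/-- **step functions with `R` steps** -/
theorem step_fun (m R M : ℕ) (hm : 0 < m) (hR : 0 < R) (A B : Finset ℤ)
    (hAB : A ∪ B = Finset.Icc 1 (2 * (m : ℤ))) (hd : Disjoint A B) (hA : A.card = m)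
    (hB : B.card = m) (hM : ∀ k, ovl A B k ≤ M) :
    ∃ p : ℤ → ℝ, (∀ i ∈ Finset.Icc (1 : ℤ) R, 0 ≤ p i ∧ p i ≤ 1) ∧
      ∑ i ∈ Finset.Icc (1 : ℤ) R, p i = (R : ℝ) / 2 ∧
      ∀ k : ℤ, SF (Finset.Icc 1 R) k p ≤ (M : ℝ) / m * ((R : ℝ) / 2) + 207 / 40 := by
  classical
  have hm' : (0 : ℝ) < m := by exact_mod_cast hm
  have hR' : (0 : ℝ) < R := by exact_mod_cast hR
  have hRz : (0 : ℤ) < R := by exact_mod_cast hR
  have hun : st A m R ∪ st B m R = Finset.Ico 0 (((2 * m) * R : ℕ) : ℤ) := by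
    ext t
    rw [Finset.mem_union, mem_st, mem_st, Finset.mem_Ico]
    push_cast
    constructor
    · rintro (h | h)
      · exact h.1
      · exact h.1
    · intro h
      have h8 : t / (R : ℤ) + 1 ∈ Finset.Icc (1 : ℤ) (2 * m) := by
        rw [Finset.mem_Icc]
        constructor
        · have := Int.ediv_nonneg h.1 hRz.le
          linarith
        · have : t / (R : ℤ) < 2 * m := by
            rw [Int.ediv_lt_iff_lt_mul hRz]
            exact h.2
          linarith
      rw [← hAB, Finset.mem_union] at h8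
      rcases h8 with h9 | h9
      · exact Or.inl ⟨h, h9⟩
      · exact Or.inr ⟨h, h9⟩
  have hdis : Disjoint (st A m R) (st B m R) := by
    rw [Finset.disjoint_left]
    intro t h1 h2
    exact Finset.disjoint_left.1 hd ((mem_st A m _ t).1 h1).2 ((mem_st B m _ t).1 h2).2
  have hca : (st A m R).card ≤ R * m := hA ▸ card_st_le A m R hR
  have hcb : (st B m R).card ≤ R * m := hB ▸ card_st_le B m R hR
  obtain ⟨h, h1, h2, h3, h4⟩ := band (2 * m) R (R * M) (by omega) hR (st A m R) (st B m R) hun hdis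
    (ovl_st A B m R hR M hM)
  have hle : ∑ i ∈ Finset.Icc (1 : ℤ) R, h i ≤ (R : ℝ) / 2 := by
    refine h3.trans ?_
    rw [div_le_div_iff₀ (by positivity) (by norm_num)]
    have : ((st A m R).card : ℝ) ≤ R * m := by exact_mod_cast hca
    push_cast
    nlinarith
  have hge : (R : ℝ) / 2 - 207 / 80 ≤ ∑ i ∈ Finset.Icc (1 : ℤ) R, h i := by
    have h5 : ((st B m R).card : ℝ) / ((2 * m : ℕ) : ℝ) ≤ (R : ℝ) / 2 := by
      rw [div_le_div_iff₀ (by positivity) (by norm_num)]
      have : ((st B m R).card : ℝ) ≤ R * m := by exact_mod_cast hcb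
      push_cast
      nlinarith
    linarith
  set s : ℝ := ∑ i ∈ Finset.Icc (1 : ℤ) R, h i with hs
  have hcardI : ((Finset.Icc (1 : ℤ) R).card : ℝ) = R := by
    rw [Int.card_Icc]
    have : ((R : ℤ) + 1 - 1).toNat = R := by omega
    rw [this]
  set l : ℝ := ((R : ℝ) / 2 - s) / (R - s) with hl
  have hRs : 0 < (R : ℝ) - s := by linarith
  have hl0 : 0 ≤ l := div_nonneg (by linarith) hRs.le
  have hl1 : l ≤ 1 := by
    rw [hl, div_le_one hRs]
    linarith
  have hls : l * (R - s) = (R : ℝ) / 2 - s := div_mul_cancel₀ _ hRs.ne'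
  refine ⟨fun i => h i + l * (1 - h i), ?_, ?_, ?_⟩
  · intro i hi
    obtain ⟨h5, h6⟩ := h1 i hi
    have h7 : 0 ≤ l * (1 - h i) := mul_nonneg hl0 (by linarith)
    have h8 : l * (1 - h i) ≤ 1 * (1 - h i) := mul_le_mul_of_nonneg_right hl1 (by linarith)
    constructor
    · show 0 ≤ h i + l * (1 - h i)
      linarith
    · show h i + l * (1 - h i) ≤ 1
      linarith
  · rw [Finset.sum_add_distrib, ← Finset.mul_sum, Finset.sum_sub_distrib, Finset.sum_const,
      nsmul_eq_mul, mul_one, hcardI, ← hs, hls]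
    ring
  · intro k
    have h5 : SF (Finset.Icc 1 R) k (fun i => h i + l * (1 - h i)) ≤
        SF (Finset.Icc 1 R) k h + ∑ i ∈ Finset.Icc (1 : ℤ) R, l * (1 - h i) := by
      unfold SF
      set J := (Finset.Icc (1 : ℤ) R).filter (fun i => i + k ∈ Finset.Icc (1 : ℤ) R) with hJ
      have h6 : ∑ i ∈ J, (h i + l * (1 - h i)) * (1 - (h (i + k) + l * (1 - h (i + k)))) ≤
          ∑ i ∈ J, (h i * (1 - h (i + k)) + l * (1 - h i)) := by
        refine Finset.sum_le_sum fun i hi => ?_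
        obtain ⟨h7, h8⟩ := h1 i (Finset.mem_filter.1 hi).1
        obtain ⟨h9, h10⟩ := h1 (i + k) (Finset.mem_filter.1 hi).2
        have e1 : 0 ≤ l * (1 - h i) := mul_nonneg hl0 (by linarith)
        have e2 : 0 ≤ l * (1 - h (i + k)) := mul_nonneg hl0 (by linarith)
        have e3 : 0 ≤ (h i + l * (1 - h i)) * (l * (1 - h (i + k))) :=
          mul_nonneg (by linarith) e2
        have e4 : 0 ≤ l * (1 - h i) * h (i + k) := mul_nonneg e1 h9
        nlinarith
      refine h6.trans ?_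
      rw [Finset.sum_add_distrib]
      refine add_le_add le_rfl ?_
      refine Finset.sum_le_sum_of_subset_of_nonneg (Finset.filter_subset _ _) fun i hi _ => ?_
      exact mul_nonneg hl0 (by linarith [(h1 i hi).2])
    have h6 : ∑ i ∈ Finset.Icc (1 : ℤ) R, l * (1 - h i) = (R : ℝ) / 2 - s := by
      rw [← Finset.mul_sum, Finset.sum_sub_distrib, Finset.sum_const, nsmul_eq_mul, mul_one, hcardI,
        ← hs, hls]
    have h7 := h2 k
    have h8 : ((R * M : ℕ) : ℝ) / ((2 * m : ℕ) : ℝ) = (M : ℝ) / m * ((R : ℝ) / 2) := by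
      push_cast
      field_simp
    rw [h8] at h7
    rw [h6] at h5
    linarith

/-- rounding of a step function: the correlations of the blow-up -/
theorem SF_blow (R q : ℕ) (hq : 0 < q) (p : ℤ → ℝ) (v : ℝ)
    (hv : ∀ k : ℤ, SF (Finset.Icc 1 R) k p ≤ v) (k : ℤ) :
    SF (Finset.Icc 1 ((q * R : ℕ) : ℤ)) k (fun i => p ((i - 1) / q + 1)) ≤ q * v := by
  classical
  have hqz : (0 : ℤ) < q := by exact_mod_cast hq
  unfold SF
  set I := Finset.Icc (1 : ℤ) ((q * R : ℕ) : ℤ) with hI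
  set J := I.filter (fun i => i + k ∈ I) with hJ
  -- split according to the residue of `i - 1`
  have h1 : ∑ i ∈ J, p ((i - 1) / q + 1) * (1 - p ((i + k - 1) / q + 1)) =
      ∑ u ∈ Finset.Ico (0 : ℤ) q, ∑ i ∈ J.filter (fun i => (i - 1) % q = u),
        p ((i - 1) / q + 1) * (1 - p ((i + k - 1) / q + 1)) := by
    rw [Finset.sum_fiberwise_of_maps_to]
    intro i _
    rw [Finset.mem_Ico]
    exact ⟨Int.emod_nonneg _ hqz.ne', Int.emod_lt_of_pos _ hqz⟩
  have h2 : ∀ u ∈ Finset.Ico (0 : ℤ) q, ∑ i ∈ J.filter (fun i => (i - 1) % q = u),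
        p ((i - 1) / q + 1) * (1 - p ((i + k - 1) / q + 1)) =
      ∑ b ∈ (Finset.Icc (1 : ℤ) R).filter (fun b => b + (u + k) / q ∈ Finset.Icc (1 : ℤ) R),
        p b * (1 - p (b + (u + k) / q)) := by
    intro u hu
    rw [Finset.mem_Ico] at hu
    have hkey : ∀ b : ℤ, (q * (b - 1) + u + k) / q = (b - 1) + (u + k) / q := by
      intro b
      have : q * (b - 1) + u + k = (u + k) + (b - 1) * q := by ring
      rw [this, Int.add_mul_ediv_right _ _ hqz.ne']
      ring
    have hrange : ∀ j : ℤ, (1 ≤ j ∧ j ≤ ((q * R : ℕ) : ℤ)) ↔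
        (1 ≤ (j - 1) / q + 1 ∧ (j - 1) / q + 1 ≤ R) := by
      intro j
      push_cast
      have e1 : 0 ≤ (j - 1) / (q : ℤ) ↔ 0 ≤ j - 1 := by
        have := Int.le_ediv_iff_mul_le (a := 0) (b := j - 1) hqz
        rw [this, zero_mul]
      have e2 : (j - 1) / (q : ℤ) < R ↔ j - 1 < R * q := Int.ediv_lt_iff_lt_mul hqz
      have e3 : (R : ℤ) * q = q * R := mul_comm _ _
      constructor
      · rintro ⟨h3, h4⟩
        have h5 := e1.2 (by linarith)
        have h6 := e2.2 (by linarith)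
        constructor <;> linarith
      · rintro ⟨h3, h4⟩
        have h5 := e1.1 (by linarith)
        have h6 := e2.1 (by linarith)
        constructor <;> linarith
    refine Finset.sum_nbij' (fun i => (i - 1) / q + 1) (fun b => q * (b - 1) + u + 1) ?_ ?_ ?_ ?_ ?_
    · intro i hi
      obtain ⟨h3, h4⟩ := Finset.mem_filter.1 hi
      obtain ⟨h5, h6⟩ := Finset.mem_filter.1 h3
      rw [hI, Finset.mem_Icc] at h5 h6
      have h7 := Int.emod_add_mul_ediv (i - 1) q
      rw [h4] at h7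
      rw [Finset.mem_filter, Finset.mem_Icc, Finset.mem_Icc]
      refine ⟨(hrange i).1 h5, ?_⟩
      have h8 := (hrange (i + k)).1 h6
      have h9 : (i + k - 1) / q = (i - 1) / q + (u + k) / q := by
        have h10 : i + k - 1 = q * (((i - 1) / q + 1) - 1) + u + k := by linarith
        rw [h10, hkey]
        ring
      rw [h9] at h8
      constructor <;> linarith [h8.1, h8.2]
    · intro b hb
      obtain ⟨h3, h4⟩ := Finset.mem_filter.1 hb
      rw [Finset.mem_Icc] at h3 h4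
      have h5 : (q * (b - 1) + u + 1 - 1) / (q : ℤ) = b - 1 := by
        have e1 : q * (b - 1) + u + 1 - 1 = u + (b - 1) * q := by ring
        rw [e1, Int.add_mul_ediv_right _ _ hqz.ne', Int.ediv_eq_zero_of_lt hu.1 hu.2]
        ring
      have h6 : (q * (b - 1) + u + 1 - 1) % (q : ℤ) = u := by
        have e1 : q * (b - 1) + u + 1 - 1 = u + (b - 1) * q := by ring
        rw [e1, Int.add_mul_emod_self_right, Int.emod_eq_of_lt hu.1 hu.2]
      have h7 : (q * (b - 1) + u + 1 + k - 1) / (q : ℤ) = (b - 1) + (u + k) / q := by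
        have e1 : q * (b - 1) + u + 1 + k - 1 = q * (b - 1) + u + k := by ring
        rw [e1, hkey]
      rw [Finset.mem_filter, Finset.mem_filter, hI, Finset.mem_Icc, Finset.mem_Icc]
      refine ⟨⟨(hrange _).2 ?_, (hrange _).2 ?_⟩, h6⟩
      · rw [h5]
        constructor <;> linarith [h3.1, h3.2]
      · rw [h7]
        constructor <;> linarith [h4.1, h4.2]
    · intro i hi
      obtain ⟨h3, h4⟩ := Finset.mem_filter.1 hi
      have h7 := Int.emod_add_mul_ediv (i - 1) q
      rw [h4] at h7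
      show q * ((i - 1) / q + 1 - 1) + u + 1 = i
      linarith
    · intro b _
      have h5 : (q * (b - 1) + u + 1 - 1) / (q : ℤ) = b - 1 := by
        have e1 : q * (b - 1) + u + 1 - 1 = u + (b - 1) * q := by ring
        rw [e1, Int.add_mul_ediv_right _ _ hqz.ne', Int.ediv_eq_zero_of_lt hu.1 hu.2]
        ring
      show (q * (b - 1) + u + 1 - 1) / (q : ℤ) + 1 = b
      rw [h5]
      ring
    · intro i hi
      obtain ⟨h3, h4⟩ := Finset.mem_filter.1 hi
      have h7 := Int.emod_add_mul_ediv (i - 1) q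
      rw [h4] at h7
      have h9 : (i + k - 1) / q = (i - 1) / q + (u + k) / q := by
        have h10 : i + k - 1 = q * (((i - 1) / q + 1) - 1) + u + k := by linarith
        rw [h10, hkey]
        ring
      rw [h9]
      congr 3
      ring
  rw [h1, Finset.sum_congr rfl h2]
  calc ∑ u ∈ Finset.Ico (0 : ℤ) q, ∑ b ∈ (Finset.Icc (1 : ℤ) R).filter
        (fun b => b + (u + k) / q ∈ Finset.Icc (1 : ℤ) R), p b * (1 - p (b + (u + k) / q))
      ≤ ∑ u ∈ Finset.Ico (0 : ℤ) q, v := Finset.sum_le_sum fun u _ => hv _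
    _ = q * v := by
      rw [Finset.sum_const, Int.card_Ico, nsmul_eq_mul]
      have : ((q : ℤ) - 0).toNat = q := by omega
      rw [this]

theorem sum_blow (R q : ℕ) (hq : 0 < q) (p : ℤ → ℝ) :
    ∑ i ∈ Finset.Icc (1 : ℤ) ((q * R : ℕ) : ℤ), p ((i - 1) / q + 1) =
      q * ∑ b ∈ Finset.Icc (1 : ℤ) R, p b := by
  induction R with
  | zero => simp
  | succ R ih =>
    have hqz : (0 : ℤ) < q := by exact_mod_cast hq
    have h1 : Finset.Icc (1 : ℤ) ((q * (R + 1) : ℕ) : ℤ) =
        Finset.Icc (1 : ℤ) ((q * R : ℕ) : ℤ) ∪ Finset.Ioc ((q * R : ℕ) : ℤ) ((q * (R + 1) : ℕ) : ℤ) := by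
      ext x
      rw [Finset.mem_union, Finset.mem_Icc, Finset.mem_Icc, Finset.mem_Ioc]
      push_cast
      have : (q : ℤ) * (R + 1) = q * R + q := by ring
      rw [this]
      have h0 : (0 : ℤ) ≤ q * R := by positivity
      constructor
      · intro h; by_cases hx : x ≤ q * R
        · exact Or.inl ⟨h.1, hx⟩
        · exact Or.inr ⟨by linarith, h.2⟩
      · rintro (h | h)
        · exact ⟨h.1, by linarith [h.2]⟩
        · exact ⟨by linarith [h.1], h.2⟩
    have h2 : Disjoint (Finset.Icc (1 : ℤ) ((q * R : ℕ) : ℤ))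
        (Finset.Ioc ((q * R : ℕ) : ℤ) ((q * (R + 1) : ℕ) : ℤ)) := by
      rw [Finset.disjoint_left]
      intro x h3 h4
      rw [Finset.mem_Icc] at h3
      rw [Finset.mem_Ioc] at h4
      linarith [h3.2, h4.1]
    rw [h1, Finset.sum_union h2, ih]
    have h3 : Finset.Icc (1 : ℤ) ((R + 1 : ℕ) : ℤ) = insert ((R : ℤ) + 1) (Finset.Icc (1 : ℤ) R) := by
      ext x
      rw [Finset.mem_insert, Finset.mem_Icc, Finset.mem_Icc]
      push_cast
      omega
    rw [h3, Finset.sum_insert (by rw [Finset.mem_Icc]; omega)]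
    have h4 : ∑ i ∈ Finset.Ioc ((q * R : ℕ) : ℤ) ((q * (R + 1) : ℕ) : ℤ), p ((i - 1) / q + 1) =
        ∑ i ∈ Finset.Ioc ((q * R : ℕ) : ℤ) ((q * (R + 1) : ℕ) : ℤ), p ((R : ℤ) + 1) := by
      refine Finset.sum_congr rfl fun i hi => ?_
      rw [Finset.mem_Ioc] at hi
      push_cast at hi
      have h5 : (i - 1) / (q : ℤ) = R := by
        have e1 : i - 1 = (i - 1 - q * R) + R * q := by ring
        rw [e1, Int.add_mul_ediv_right _ _ hqz.ne', Int.ediv_eq_zero_of_lt (by linarith)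
          (by nlinarith)]
        ring
      rw [h5]
    rw [h4, Finset.sum_const, Int.card_Ioc, nsmul_eq_mul]
    have h5 : (((q * (R + 1) : ℕ) : ℤ) - ((q * R : ℕ) : ℤ)).toNat = q := by
      push_cast
      have : (q : ℤ) * (R + 1) - q * R = q := by ring
      rw [this]
      exact Int.toNat_natCast q
    rw [h5]
    ring

/-- from a function on `{1..2n}` of mass `n` to a splitting -/
theorem round_split (n : ℕ) (p : ℤ → ℝ)
    (hp : ∀ i ∈ Finset.Icc (1 : ℤ) (2 * n), 0 ≤ p i ∧ p i ≤ 1)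
    (hs : ∑ i ∈ Finset.Icc (1 : ℤ) (2 * n), p i = n) (v : ℝ) (hv0 : 0 ≤ v)
    (hv : ∀ k : ℤ, SF (Finset.Icc 1 (2 * n)) k p ≤ v) (s : ℝ) (hs0 : 0 < s) (hs1 : s ≤ 1) :
    ∃ A' B' : Finset ℤ, Disjoint A' B' ∧ A' ∪ B' = Finset.Icc 1 (2 * (n : ℤ)) ∧ A'.card = n ∧
      B'.card = n ∧ ∀ y, (ovl A' B' y : ℝ) ≤ v + 3 * (Real.log (8 * n + 2) / s + 2 * n * s) := by
  obtain ⟨w, hw1, hw2, hw3⟩ := round n p hp s hs0 hs1
  have hlog : 0 ≤ Real.log (8 * n + 2) := Real.log_nonneg (by
    have : (0 : ℝ) ≤ n := Nat.cast_nonneg n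
    linarith)
  have hE : 0 ≤ Real.log (8 * n + 2) / s + 2 * n * s := by positivity
  rw [hs] at hw3
  obtain ⟨A', B', h1, h2, h3, h4, h5⟩ := exists_split n w hw1
    (v + 2 * (Real.log (8 * n + 2) / s + 2 * n * s))
    (Real.log (8 * n + 2) / s + 2 * n * s) (by positivity)
    (fun k hk => (hw2 k hk).trans (by linarith [hv k])) hw3
  exact ⟨A', B', h1, h2, h3, h4, fun y => (h5 y).trans (by linarith)⟩

/-- the error of the rounding, all `n ≥ 2` -/
theorem num2 (n : ℕ) (hn : 600 ≤ n) :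
    ∃ s : ℝ, 0 < s ∧ s ≤ 1 ∧
      26 / 5 + 3 * (Real.log (8 * n + 2) / s + 2 * n * s) ≤ 10 * √(n * Real.log n) := by
  have hnr : (600 : ℝ) ≤ n := by exact_mod_cast hn
  set l := Real.log n with hl
  set La := Real.log (8 * n + 2) with hLa
  have hn0 : (0 : ℝ) < n := by linarith
  have hl6 : 6 ≤ l := by
    rw [hl, Real.le_log_iff_exp_le hn0]
    have h3 : Real.exp 6 = Real.exp 1 ^ 6 := by
      rw [← Real.exp_nat_mul]
      norm_num
    rw [h3]
    have h4 := Real.exp_one_lt_d9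
    have h5 : Real.exp 1 ^ 6 ≤ 2.7182818286 ^ 6 :=
      pow_le_pow_left₀ (Real.exp_pos 1).le h4.le 6
    have h6 : (2.7182818286 : ℝ) ^ 6 ≤ 600 := by norm_num
    linarith
  have hLa1 : La ≤ 4 / 3 * l := by
    have h3 : (8 * (n : ℝ) + 2) ^ 3 ≤ (n : ℝ) ^ 4 := by
      have h4 : 8 * (n : ℝ) + 2 ≤ 8.01 * n := by linarith
      calc (8 * (n : ℝ) + 2) ^ 3 ≤ (8.01 * n) ^ 3 := pow_le_pow_left₀ (by positivity) h4 3
        _ = 8.01 ^ 3 * (n : ℝ) ^ 3 := by ring
        _ ≤ n * (n : ℝ) ^ 3 := mul_le_mul_of_nonneg_right (by norm_num; linarith) (by positivity)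
        _ = (n : ℝ) ^ 4 := by ring
    have h5 := Real.log_le_log (by positivity) h3
    rw [Real.log_pow, Real.log_pow] at h5
    push_cast at h5
    linarith
  have hLa0 : 0 < La := Real.log_pos (by linarith)
  have hLa2 : La ≤ 2 * n := by
    have := Real.log_le_sub_one_of_pos hn0
    linarith
  set s := √(La / (2 * n)) with hs
  have hs0 : 0 < s := Real.sqrt_pos.2 (by positivity)
  have hs1 : s ≤ 1 := by
    have h7 : La / (2 * n) ≤ 1 := by
      rw [div_le_one (by positivity)]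
      exact hLa2
    calc s = √(La / (2 * n)) := hs
      _ ≤ √1 := Real.sqrt_le_sqrt h7
      _ = 1 := Real.sqrt_one
  have hs2 : s ^ 2 = La / (2 * n) := Real.sq_sqrt (by positivity)
  have h3 : La / s = 2 * n * s := by
    rw [div_eq_iff hs0.ne']
    have : 2 * n * s * s = 2 * n * s ^ 2 := by ring
    rw [this, hs2]
    field_simp
  have hQ : √(n * l) ^ 2 = n * l := Real.sq_sqrt (by positivity)
  set Q := √(n * l) with hQdef
  have hQ0 : 0 ≤ Q := Real.sqrt_nonneg _
  have h4 : 2 * n * s ≤ 1.633 * Q := by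
    refine (pow_le_pow_iff_left₀ (by positivity) (by positivity) two_ne_zero).1 ?_
    calc (2 * n * s) ^ 2 = 2 * n * La := by
          rw [mul_pow, hs2]
          field_simp
      _ ≤ 2 * n * (4 / 3 * l) := mul_le_mul_of_nonneg_left hLa1 (by positivity)
      _ = 8 / 3 * (n * l) := by ring
      _ ≤ 1.633 ^ 2 * (n * l) := mul_le_mul_of_nonneg_right (by norm_num) (by positivity)
      _ = (1.633 * Q) ^ 2 := by rw [mul_pow, hQ]
  have h6 : (60 : ℝ) ≤ Q := by
    refine (pow_le_pow_iff_left₀ (by norm_num) hQ0 two_ne_zero).1 ?_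
    rw [hQ]
    nlinarith
  refine ⟨s, hs0, hs1, ?_⟩
  rw [h3]
  linarith

end Pool.Agent.Work.MP_62db8e_nt.Sw
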