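import Mathlib
import Pool.Agent.Work.MP_62db8e_nt.Sw.Step

/-!
Rates of convergence in the minimum overlap problem: the combined theorem.
-/

set_option autoImplicit false

namespace Pool.Agent.Work.MP_62db8e_nt.Sw.Main

open Finset Filter Topology
open Pool.Agent.Work.MP_62db8e_nt.Sw

/-- `O_k(A,B)`: the number of pairs `(a,b) ∈ A × B` with `a - b = k`. -/
def overlap (A B : Finset ℤ) (k : ℤ) : ℕ := ((A ×ˢ B).filter (fun p => p.1 - p.2 = k)).card

/-- `O(A,B) = max_k O_k(A,B)`. -/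
noncomputable def maxOverlap (A B : Finset ℤ) : ℕ := ⨆ k : ℤ, overlap A B k

/-- `(A,B)` is a splitting of `{1,…,2n}` into two disjoint halves of size `n`. -/
def IsSplitting (n : ℕ) (A B : Finset ℤ) : Prop :=
  Disjoint A B ∧ A ∪ B = Finset.Icc 1 (2 * (n : ℤ)) ∧ A.card = n ∧ B.card = n

/-- `M(n)`: the least `O(A,B)` over all splittings of `{1,…,2n}`. -/
noncomputable def M (n : ℕ) : ℕ := sInf {m : ℕ | ∃ A B : Finset ℤ, IsSplitting n A B ∧ maxOverlap A B = m}

/-- `h 1, …, h R` are the heights of a step function `f : [0,2] → [0,1]` with `R` steps of equal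
length `2/R` and with `∫ f = 1` (the values of `h` outside `{1,…,R}` play no role). -/
def IsStep (R : ℕ) (h : ℤ → ℝ) : Prop :=
  (∀ i ∈ Finset.Icc (1 : ℤ) R, 0 ≤ h i ∧ h i ≤ 1) ∧ ∑ i ∈ Finset.Icc (1 : ℤ) R, h i = (R : ℝ) / 2

/-- `∫ f(t) (1 - f(t + x)) dt` over the `t` with `t, t + x ∈ [0,2]`, for `x = 2k/R` and the step
function `f` with the heights `h 1, …, h R`. (The integral is a linear function of `x` between
consecutive multiples of `2/R`, so these are the values that matter for the supremum.) -/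
noncomputable def stepOverlap (R : ℕ) (h : ℤ → ℝ) (k : ℤ) : ℝ :=
  2 / R * ∑ i ∈ (Finset.Icc (1 : ℤ) R).filter (fun i => i + k ∈ Finset.Icc (1 : ℤ) R),
    h i * (1 - h (i + k))

theorem overlap_le_card (A B : Finset ℤ) (k : ℤ) : overlap A B k ≤ A.card := by
  unfold overlap
  refine Finset.card_le_card_of_injOn (fun p => p.1) ?_ ?_
  · intro p hp
    exact Finset.mem_coe.2 (Finset.mem_product.1 (Finset.mem_filter.1 (Finset.mem_coe.1 hp)).1).1
  · intro p hp q hq h
    have h1 := (Finset.mem_filter.1 (Finset.mem_coe.1 hp)).2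
    have h2 := (Finset.mem_filter.1 (Finset.mem_coe.1 hq)).2
    have h3 : p.1 = q.1 := h
    exact Prod.ext h3 (by omega)

theorem overlap_le_max (A B : Finset ℤ) (k : ℤ) : overlap A B k ≤ maxOverlap A B := by
  refine le_ciSup (f := fun k => overlap A B k) ?_ k
  exact ⟨A.card, by rintro _ ⟨k, rfl⟩; exact overlap_le_card A B k⟩

theorem exists_splitting (n : ℕ) : ∃ A B : Finset ℤ, IsSplitting n A B := by
  refine ⟨Finset.Icc 1 n, Finset.Icc (n + 1) (2 * n), ?_, ?_, ?_, ?_⟩
  · rw [Finset.disjoint_left]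
    intro x h1 h2
    rw [Finset.mem_Icc] at h1 h2
    omega
  · ext x
    rw [Finset.mem_union, Finset.mem_Icc, Finset.mem_Icc, Finset.mem_Icc]
    omega
  · rw [Int.card_Icc]
    omega
  · rw [Int.card_Icc]
    omega

/-- an optimal splitting -/
theorem exists_opt (n : ℕ) : ∃ A B : Finset ℤ, IsSplitting n A B ∧ maxOverlap A B = M n := by
  have hne : {m : ℕ | ∃ A B : Finset ℤ, IsSplitting n A B ∧ maxOverlap A B = m}.Nonempty := by
    obtain ⟨A, B, h⟩ := exists_splitting n
    exact ⟨_, A, B, h, rfl⟩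
  exact Nat.sInf_mem hne

theorem M_le_self (n : ℕ) : M n ≤ n := by
  obtain ⟨A, B, h, h1⟩ := exists_opt n
  rw [← h1]
  unfold maxOverlap
  refine ciSup_le fun k => ?_
  rw [← h.2.2.1]
  exact overlap_le_card A B k

theorem M_le_of (n : ℕ) (A B : Finset ℤ) (h : IsSplitting n A B) (x : ℝ)
    (hx : ∀ k, (overlap A B k : ℝ) ≤ x) : (M n : ℝ) ≤ x := by
  have hx0 : 0 ≤ x := (Nat.cast_nonneg _).trans (hx 0)
  have h1 : M n ≤ maxOverlap A B := Nat.sInf_le ⟨A, B, h, rfl⟩
  have h2 : maxOverlap A B ≤ ⌊x⌋₊ := ciSup_le fun k => Nat.le_floor (hx k)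
  calc (M n : ℝ) ≤ (⌊x⌋₊ : ℝ) := by exact_mod_cast h1.trans h2
    _ ≤ x := Nat.floor_le hx0

/-- for small `n` the error term is larger than `n` -/
theorem small (n : ℕ) (hn : 2 ≤ n) (h : n < 600) : (n : ℝ) ≤ 10 * √(n * Real.log n) := by
  have hn0 : (0 : ℝ) < n := by exact_mod_cast (by omega : 0 < n)
  have hl2 := Real.log_two_gt_d9
  have h2 : (n : ℝ) ≤ 100 * Real.log n := by
    rcases lt_or_ge n 64 with h3 | h3
    · have h4 : Real.log 2 ≤ Real.log n :=
        Real.log_le_log (by norm_num) (by exact_mod_cast hn)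
      have h5 : (n : ℝ) < 64 := by exact_mod_cast h3
      linarith
    · rcases lt_or_ge n 256 with h4 | h4
      · have h5 : Real.log ((2 : ℝ) ^ 6) ≤ Real.log n :=
          Real.log_le_log (by norm_num) (by norm_num; exact_mod_cast h3)
        rw [Real.log_pow] at h5
        have h6 : (n : ℝ) < 256 := by exact_mod_cast h4
        push_cast at h5
        linarith
      · rcases lt_or_ge n 512 with h7 | h7
        · have h5 : Real.log ((2 : ℝ) ^ 8) ≤ Real.log n :=
            Real.log_le_log (by norm_num) (by norm_num; exact_mod_cast h4)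
          rw [Real.log_pow] at h5
          have h6 : (n : ℝ) < 512 := by exact_mod_cast h7
          push_cast at h5
          linarith
        · have h5 : Real.log ((2 : ℝ) ^ 9) ≤ Real.log n :=
            Real.log_le_log (by norm_num) (by norm_num; exact_mod_cast h7)
          rw [Real.log_pow] at h5
          have h6 : (n : ℝ) < 600 := by exact_mod_cast h
          push_cast at h5
          linarith
  have h4 : 0 ≤ (n : ℝ) * Real.log n := by
    have : 0 ≤ Real.log n := by linarith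
    positivity
  refine (pow_le_pow_iff_left₀ hn0.le (by positivity) two_ne_zero).1 ?_
  rw [mul_pow, Real.sq_sqrt h4]
  nlinarith

/-- comparison of two values -/
theorem compare (m n : ℕ) (hm : 0 < m) (hn : 2 ≤ n) :
    (M n : ℝ) ≤ (M m : ℝ) / m * n + 10 * √(n * Real.log n) := by
  have hm' : (0 : ℝ) < m := by exact_mod_cast hm
  rcases lt_or_ge n 600 with h | h
  · have h1 : (M n : ℝ) ≤ n := by exact_mod_cast M_le_self n
    have h3 := small n hn h
    have h4 : 0 ≤ (M m : ℝ) / m * n := by positivity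
    linarith
  · obtain ⟨A, B, hAB, hopt⟩ := exists_opt m
    obtain ⟨s, hs0, hs1, hnum⟩ := num2 n h
    obtain ⟨p, hp1, hp2, hp3⟩ := step_fun m (2 * n) (M m) hm (by omega) A B hAB.2.1 hAB.1
      hAB.2.2.1 hAB.2.2.2 (fun k => by rw [← hopt]; exact overlap_le_max A B k)
    have hc : ((2 * n : ℕ) : ℤ) = 2 * (n : ℤ) := by push_cast; ring
    have hr : ((2 * n : ℕ) : ℝ) / 2 = n := by push_cast; ring
    rw [hc] at hp1 hp2
    rw [hr] at hp2
    obtain ⟨A', B', h1, h2, h3, h4, h5⟩ := round_split n p hp1 hp2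
      ((M m : ℝ) / m * n + 26 / 5) (by positivity) (fun k => by
        have := hp3 k
        rw [hc, hr] at this
        linarith) s hs0 hs1
    refine M_le_of n A' B' ⟨h1, h2, h3, h4⟩ _ (fun k => (h5 k).trans ?_)
    linarith

theorem sqrt_form (n : ℕ) (hn : 0 < n) : √((n : ℝ) * Real.log n) = √(Real.log n / n) * n := by
  have hn0 : (0 : ℝ) < n := by exact_mod_cast hn
  have h3 : (n : ℝ) * Real.log n = (Real.log n / n) * (n : ℝ) ^ 2 := by
    field_simp
  rw [h3, Real.sqrt_mul' _ (sq_nonneg _), Real.sqrt_sq hn0.le]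

theorem lim_err : Tendsto (fun n : ℕ => √(Real.log (n : ℝ) / (n : ℝ))) atTop (𝓝 0) := by
  have h1 : Tendsto (fun n : ℕ => Real.log (n : ℝ) / (n : ℝ)) atTop (𝓝 0) := by
    have h2 := (Real.tendsto_pow_log_div_mul_add_atTop 1 0 1 one_ne_zero).comp
      (tendsto_natCast_atTop_atTop (R := ℝ))
    refine h2.congr fun n => ?_
    simp
  have h3 : Tendsto (fun n : ℕ => √(Real.log (n : ℝ) / (n : ℝ))) atTop (𝓝 √0) :=
    (Real.continuous_sqrt.tendsto 0).comp h1
  rw [Real.sqrt_zero] at h3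
  exact h3

/-- step functions cannot do better than `μ` -/
theorem step_lower (μ : ℝ) (hμ : ∀ n : ℕ, 0 < n → μ * n ≤ M n) (R : ℕ) (hR : 0 < R) (h : ℤ → ℝ)
    (hh : IsStep R h) : ∃ k : ℤ, μ ≤ stepOverlap R h k := by
  have hRr : (0 : ℝ) < R := by exact_mod_cast hR
  -- the maximal shift
  obtain ⟨k₀, -, hk₀⟩ := Finset.exists_max_image (Finset.Icc (-(R : ℤ)) R)
    (fun k => SF (Finset.Icc 1 R) k h) ⟨0, by rw [Finset.mem_Icc]; omega⟩
  set v := SF (Finset.Icc 1 R) k₀ h with hv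
  have hnn : ∀ k, 0 ≤ SF (Finset.Icc 1 R) k h := by
    intro k
    unfold SF
    refine Finset.sum_nonneg fun i hi => ?_
    obtain ⟨h1, h2⟩ := Finset.mem_filter.1 hi
    exact mul_nonneg (hh.1 i h1).1 (by linarith [(hh.1 _ h2).2])
  have hmax : ∀ k, SF (Finset.Icc 1 R) k h ≤ v := by
    intro k
    by_cases hk : k ∈ Finset.Icc (-(R : ℤ)) R
    · exact hk₀ k hk
    · have h1 : SF (Finset.Icc 1 R) k h = 0 := by
        unfold SF
        have h2 : (Finset.Icc (1 : ℤ) R).filter (fun i => i + k ∈ Finset.Icc (1 : ℤ) R) = ∅ := by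
          rw [Finset.eq_empty_iff_forall_notMem]
          intro i hi
          obtain ⟨h3, h4⟩ := Finset.mem_filter.1 hi
          rw [Finset.mem_Icc] at h3 h4 hk
          omega
        rw [h2, Finset.sum_empty]
      rw [h1]
      exact hnn k₀
  refine ⟨k₀, ?_⟩
  show μ ≤ 2 / R * v
  -- `μ ≤ (2/R) v + 10 √(log n / n)` for `n = r R`
  have hseq : ∀ r : ℕ, 600 ≤ r → μ - 2 / R * v ≤ 10 * √(Real.log ((r * R : ℕ) : ℝ) / ((r * R : ℕ) : ℝ)) := by
    intro r hr
    have hn : 600 ≤ r * R := le_trans hr (Nat.le_mul_of_pos_right r hR)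
    obtain ⟨s, hs0, hs1, hnum⟩ := num2 (r * R) hn
    have hn0 : (0 : ℝ) < ((r * R : ℕ) : ℝ) := by exact_mod_cast (by omega : 0 < r * R)
    have hc : (((2 * r) * R : ℕ) : ℤ) = 2 * ((r * R : ℕ) : ℤ) := by push_cast; ring
    have h1 := SF_blow R (2 * r) (by omega) h v hmax
    have h2 := sum_blow R (2 * r) (by omega) h
    rw [hh.2] at h2
    rw [hc] at h2
    obtain ⟨A', B', e1, e2, e3, e4, e5⟩ := round_split (r * R)
      (fun i => h ((i - 1) / ((2 * r : ℕ) : ℤ) + 1)) (fun i hi => by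
        rw [Finset.mem_Icc] at hi
        refine hh.1 _ ?_
        rw [Finset.mem_Icc]
        have hq : (0 : ℤ) < ((2 * r : ℕ) : ℤ) := by exact_mod_cast (by omega : 0 < 2 * r)
        constructor
        · have := Int.ediv_nonneg (by linarith : 0 ≤ i - 1) hq.le
          linarith
        · have : (i - 1) / ((2 * r : ℕ) : ℤ) < R := by
            rw [Int.ediv_lt_iff_lt_mul hq]
            have h3 : (R : ℤ) * ((2 * r : ℕ) : ℤ) = 2 * ((r * R : ℕ) : ℤ) := by push_cast; ring
            rw [h3]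
            linarith
          linarith) (by
        rw [h2]
        push_cast
        ring) ((2 * r : ℕ) * v) (mul_nonneg (Nat.cast_nonneg _) (hnn k₀)) (fun k => by
        have := h1 k
        rw [hc] at this
        exact this) s hs0 hs1
    have h3 := M_le_of (r * R) A' B' ⟨e1, e2, e3, e4⟩ _ e5
    have h4 := hμ (r * R) (by omega)
    rw [sqrt_form (r * R) (by omega)] at hnum
    have h5 : ((2 * r : ℕ) : ℝ) * v = (2 / R * v) * ((r * R : ℕ) : ℝ) := by
      push_cast
      field_simp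
    rw [h5] at h3
    have h6 : (μ - 2 / R * v) * ((r * R : ℕ) : ℝ) ≤
        (10 * √(Real.log ((r * R : ℕ) : ℝ) / ((r * R : ℕ) : ℝ))) * ((r * R : ℕ) : ℝ) := by
      linarith
    exact le_of_mul_le_mul_right h6 hn0
  have hsub : Tendsto (fun r : ℕ => r * R) atTop atTop :=
    tendsto_id.atTop_mul_const' hR
  have hlim : Tendsto (fun r : ℕ => 10 * √(Real.log ((r * R : ℕ) : ℝ) / ((r * R : ℕ) : ℝ)))
      atTop (𝓝 0) := by
    have h8 := (lim_err.comp hsub).const_mul 10
    rw [mul_zero] at h8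
    exact h8
  have h7 : μ - 2 / R * v ≤ 0 := by
    refine ge_of_tendsto hlim ?_
    filter_upwards [eventually_ge_atTop 600] with r hr
    exact hseq r hr
  linarith

/-- **Rates of convergence in the minimum overlap problem.** The sequence `M(n)/n` converges to a
number `μ`, and
(1) `μ n ≤ M(n) ≤ μ n + 10 √(n log n)` for every `n ≥ 2`;
(2) for every `R ≥ 1` every step function `f : [0,2] → [0,1]` with `R` equal steps and `∫ f = 1` has an
overlap `≥ μ`, and some such step function has all its overlaps `≤ μ + 52/(5R)`. -/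
theorem both : ∃ μ : ℝ, Tendsto (fun n : ℕ => (M n : ℝ) / n) atTop (𝓝 μ) ∧
    (∀ n : ℕ, 2 ≤ n → μ * n ≤ M n ∧ (M n : ℝ) ≤ μ * n + 10 * √(n * Real.log n)) ∧
    ∀ R : ℕ, 1 ≤ R → (∀ h : ℤ → ℝ, IsStep R h → ∃ k : ℤ, μ ≤ stepOverlap R h k) ∧
      ∃ h : ℤ → ℝ, IsStep R h ∧ ∀ k : ℤ, stepOverlap R h k ≤ μ + 52 / (5 * R) := by
  set f : ℕ → ℝ := fun n => (M (n + 1) : ℝ) / ((n + 1 : ℕ) : ℝ) with hf
  have hbdd : BddBelow (Set.range f) := ⟨0, by rintro _ ⟨n, rfl⟩; positivity⟩
  set μ : ℝ := ⨅ n, f n with hμ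
  have hlow : ∀ n : ℕ, 0 < n → μ ≤ (M n : ℝ) / n := by
    intro n hn
    obtain ⟨k, rfl⟩ : ∃ k, n = k + 1 := ⟨n - 1, by omega⟩
    exact ciInf_le hbdd k
  have hup : ∀ n : ℕ, 2 ≤ n → (M n : ℝ) ≤ μ * n + 10 * √(n * Real.log n) := by
    intro n hn
    have hn0 : (0 : ℝ) < n := by exact_mod_cast (by omega : 0 < n)
    have h1 : ((M n : ℝ) - 10 * √(n * Real.log n)) / n ≤ μ := by
      refine le_ciInf fun k => ?_
      rw [div_le_iff₀ hn0]
      have := compare (k + 1) n (Nat.succ_pos k) hn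
      show (M n : ℝ) - 10 * √(n * Real.log n) ≤ (M (k + 1) : ℝ) / ((k + 1 : ℕ) : ℝ) * n
      linarith
    rw [div_le_iff₀ hn0] at h1
    linarith
  have hlow' : ∀ n : ℕ, 0 < n → μ * n ≤ M n := by
    intro n hn
    have hn0 : (0 : ℝ) < n := by exact_mod_cast hn
    have := hlow n hn
    rwa [le_div_iff₀ hn0] at this
  refine ⟨μ, ?_, fun n hn => ⟨hlow' n (by omega), hup n hn⟩, fun R hR =>
    ⟨fun h hh => step_lower μ hlow' R hR h hh, ?_⟩⟩
  · have hlim : Tendsto (fun n : ℕ => μ + 10 * √(Real.log n / n)) atTop (𝓝 μ) := by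
      have h3 := (lim_err.const_mul 10).const_add μ
      simpa using h3
    refine tendsto_of_tendsto_of_tendsto_of_le_of_le' tendsto_const_nhds hlim ?_ ?_
    · filter_upwards [eventually_gt_atTop 0] with n hn
      exact hlow n hn
    · filter_upwards [eventually_ge_atTop 2] with n hn
      have hn0 : (0 : ℝ) < n := by exact_mod_cast (by omega : 0 < n)
      have h1 := hup n hn
      rw [div_le_iff₀ hn0]
      rw [sqrt_form n (by omega)] at h1
      linarith
  · have hRr : (0 : ℝ) < R := by exact_mod_cast hR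
    obtain ⟨k, hk⟩ := exists_lt_of_ciInf_lt (lt_add_of_pos_right μ (by positivity : 0 < 1 / (20 * (R : ℝ))))
    obtain ⟨A, B, hAB, hopt⟩ := exists_opt (k + 1)
    obtain ⟨p, hp1, hp2, hp3⟩ := step_fun (k + 1) R (M (k + 1)) (Nat.succ_pos k) hR A B hAB.2.1
      hAB.1 hAB.2.2.1 hAB.2.2.2 (fun k => by rw [← hopt]; exact overlap_le_max A B k)
    refine ⟨p, ⟨hp1, hp2⟩, fun j => ?_⟩
    have h1 := hp3 j
    have h2 : (M (k + 1) : ℝ) / ((k + 1 : ℕ) : ℝ) < μ + 1 / (20 * R) := hk
    show 2 / R * SF (Finset.Icc 1 R) j p ≤ μ + 52 / (5 * R)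
    calc 2 / R * SF (Finset.Icc 1 R) j p
        ≤ 2 / R * ((M (k + 1) : ℝ) / ((k + 1 : ℕ) : ℝ) * ((R : ℝ) / 2) + 207 / 40) :=
          mul_le_mul_of_nonneg_left h1 (by positivity)
      _ ≤ 2 / R * ((μ + 1 / (20 * R)) * ((R : ℝ) / 2) + 207 / 40) := by
          refine mul_le_mul_of_nonneg_left ?_ (by positivity)
          have := mul_le_mul_of_nonneg_right h2.le (by positivity : 0 ≤ (R : ℝ) / 2)
          linarith
      _ = μ + 52 / (5 * R) := by
          field_simp
          ring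

end Pool.Agent.Work.MP_62db8e_nt.Sw.Main
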