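import Pool.Agent.Work.MP_62db8e_nt.Sw.Round

set_option autoImplicit false

/-! Smearing a splitting of `{1..2m}` to a function on `{1..2n}`. -/

namespace Pool.Agent.Work.MP_62db8e_nt.Sw

open Finset

/-- `O_k(A,B)` -/
def ovl (A B : Finset ℤ) (k : ℤ) : ℕ := ((A ×ˢ B).filter (fun p => p.1 - p.2 = k)).card

/-- blow-up of a subset of `{1..2m}` to a subset of `[0, 2mN)` -/
noncomputable def st (A : Finset ℤ) (m N : ℕ) : Finset ℤ :=
  (Finset.Ico (0 : ℤ) (2 * m * N)).filter (fun t => t / N + 1 ∈ A)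

theorem mem_st (A : Finset ℤ) (m N : ℕ) (t : ℤ) :
    t ∈ st A m N ↔ (0 ≤ t ∧ t < 2 * m * N) ∧ t / N + 1 ∈ A := by
  unfold st
  rw [Finset.mem_filter, Finset.mem_Ico]

theorem ovl_st (A B : Finset ℤ) (m N : ℕ) (hN : 0 < N) (M : ℕ) (hM : ∀ k, ovl A B k ≤ M) (y : ℤ) :
    ovl (st A m N) (st B m N) y ≤ N * M := by
  have hN' : (0 : ℤ) < N := by exact_mod_cast hN
  unfold ovl
  have h1 := Finset.card_le_mul_card_image_of_maps_to
    (s := (st A m N ×ˢ st B m N).filter (fun p => p.1 - p.2 = y))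
    (t := Finset.Ico (0 : ℤ) N) (f := fun p => p.2 % (N : ℤ))
    (fun p _ => Finset.mem_Ico.2 ⟨Int.emod_nonneg _ hN'.ne', Int.emod_lt_of_pos _ hN'⟩) M ?_
  · have h2 : (Finset.Ico (0 : ℤ) N).card = N := by rw [Int.card_Ico]; omega
    rw [h2] at h1
    rw [Nat.mul_comm]
    exact h1
  · intro u _
    refine le_trans ?_ (hM ((u + y) / N))
    unfold ovl
    have hdiv : ∀ p : ℤ × ℤ, p.1 - p.2 = y → p.2 % (N : ℤ) = u →
        p.1 / N = p.2 / N + (u + y) / N := by
      intro p h3 h4
      have h5 : p.2 = u + p.2 / N * N := by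
        have := Int.emod_add_mul_ediv p.2 N
        rw [h4] at this
        linarith
      have h6 : p.1 = (u + y) + p.2 / N * N := by linarith
      calc p.1 / N = ((u + y) + p.2 / N * N) / N := by rw [← h6]
        _ = (u + y) / N + p.2 / N := Int.add_mul_ediv_right _ _ hN'.ne'
        _ = p.2 / N + (u + y) / N := by ring
    refine Finset.card_le_card_of_injOn (fun p => (p.1 / N + 1, p.2 / N + 1)) ?_ ?_
    · intro p hp
      obtain ⟨hp1, hp2⟩ := Finset.mem_filter.1 (Finset.mem_coe.1 hp)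
      obtain ⟨hp3, hp4⟩ := Finset.mem_filter.1 hp1
      obtain ⟨hp5, hp6⟩ := Finset.mem_product.1 hp3
      refine Finset.mem_coe.2 (Finset.mem_filter.2 ⟨Finset.mem_product.2
        ⟨((mem_st A m N _).1 hp5).2, ((mem_st B m N _).1 hp6).2⟩, ?_⟩)
      have := hdiv p hp4 hp2
      show p.1 / N + 1 - (p.2 / N + 1) = (u + y) / N
      linarith
    · intro p hp q hq h
      obtain ⟨hp1, hp2⟩ := Finset.mem_filter.1 (Finset.mem_coe.1 hp)
      obtain ⟨hq1, hq2⟩ := Finset.mem_filter.1 (Finset.mem_coe.1 hq)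
      have hp4 := (Finset.mem_filter.1 hp1).2
      have hq4 := (Finset.mem_filter.1 hq1).2
      have h3 : p.2 / N + 1 = q.2 / N + 1 := congrArg Prod.snd h
      have h4 := Int.emod_add_mul_ediv p.2 N
      have h5 := Int.emod_add_mul_ediv q.2 N
      rw [hp2] at h4
      rw [hq2] at h5
      have h6 : p.2 / N = q.2 / N := by linarith
      rw [h6] at h4
      have h7 : p.2 = q.2 := by linarith
      exact Prod.ext (by linarith) h7

theorem card_st_le (A : Finset ℤ) (m N : ℕ) (hN : 0 < N) : (st A m N).card ≤ N * A.card := by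
  have hN' : (0 : ℤ) < N := by exact_mod_cast hN
  have h1 := Finset.card_le_mul_card_image_of_maps_to (s := st A m N) (t := A)
    (f := fun t => t / (N : ℤ) + 1) (fun t ht => ((mem_st A m N t).1 ht).2) N ?_
  · exact h1
  · intro a _
    have h2 : (st A m N).filter (fun t => t / (N : ℤ) + 1 = a) ⊆
        Finset.Ico ((a - 1) * N) ((a - 1) * N + N) := by
      intro t ht
      have h3 := (Finset.mem_filter.1 ht).2
      have h4 := Int.emod_add_mul_ediv t N
      have h5 := Int.emod_nonneg t hN'.ne'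
      have h6 := Int.emod_lt_of_pos t hN'
      have h7 : t / N = a - 1 := by linarith
      rw [h7] at h4
      rw [Finset.mem_Ico]
      constructor <;> nlinarith
    refine (Finset.card_le_card h2).trans ?_
    rw [Int.card_Ico]
    omega

/-- the tent function has sum `c²` -/
theorem tent (a : ℤ) (c : ℕ) :
    ∑ y ∈ Finset.Icc (a - c) (a + c), ((c : ℤ) - |y - a|).toNat = c ^ 2 := by
  induction c with
  | zero => simp
  | succ c ih =>
    have h1 : Finset.Icc (a - ((c + 1 : ℕ) : ℤ)) (a + ((c + 1 : ℕ) : ℤ)) =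
        insert (a - c - 1) (insert (a + c + 1) (Finset.Icc (a - c) (a + c))) := by
      ext y
      simp only [Finset.mem_insert, Finset.mem_Icc]
      push_cast
      omega
    rw [h1, Finset.sum_insert, Finset.sum_insert]
    · have h2 : (((c + 1 : ℕ) : ℤ) - |a - c - 1 - a|).toNat = 0 := by
        have : a - c - 1 - a = -((c : ℤ) + 1) := by ring
        rw [this, abs_neg, abs_of_nonneg (by positivity)]
        push_cast
        omega
      have h3 : (((c + 1 : ℕ) : ℤ) - |a + c + 1 - a|).toNat = 0 := by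
        have : a + c + 1 - a = (c : ℤ) + 1 := by ring
        rw [this, abs_of_nonneg (by positivity)]
        push_cast
        omega
      have h4 : ∀ y ∈ Finset.Icc (a - c) (a + c), (((c + 1 : ℕ) : ℤ) - |y - a|).toNat =
          ((c : ℤ) - |y - a|).toNat + 1 := by
        intro y hy
        rw [Finset.mem_Icc] at hy
        have h5 : |y - a| ≤ c := abs_le.2 ⟨by linarith, by linarith⟩
        push_cast
        omega
      rw [h2, h3, Finset.sum_congr rfl h4, Finset.sum_add_distrib, ih, Finset.sum_const, Int.card_Icc]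
      have h6 : (a + (c : ℤ) + 1 - (a - c)).toNat = 2 * c + 1 := by omega
      rw [h6]
      simp only [smul_eq_mul, mul_one]
      ring
    · rw [Finset.mem_Icc]
      omega
    · rw [Finset.mem_insert, Finset.mem_Icc]
      omega

/-- the window condition -/
def win (m D : ℕ) (i t : ℤ) : Prop := i ≤ t / m + 1 ∧ t / m + 1 ≤ i + 2 * D

instance (m D : ℕ) (i t : ℤ) : Decidable (win m D i t) := by unfold win; infer_instance

/-- number of elements in the window -/
def WW (m D : ℕ) (C : Finset ℤ) (i : ℤ) : ℕ := (C.filter (fun t => win m D i t)).card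

theorem cnt (m D : ℕ) (J : Finset ℤ) (k t t' : ℤ) :
    (J.filter (fun i => win m D i t ∧ win m D (i + k) t')).card ≤
      ((2 * D + 1 : ℤ) - |t' / m - t / m - k|).toNat := by
  have h1 : J.filter (fun i => win m D i t ∧ win m D (i + k) t') ⊆
      Finset.Icc (max (t / m + 1 - 2 * D) (t' / m + 1 - k - 2 * D))
        (min (t / m + 1) (t' / m + 1 - k)) := by
    intro i hi
    obtain ⟨h2, h3⟩ := (Finset.mem_filter.1 hi).2
    unfold win at h2 h3
    rw [Finset.mem_Icc, max_le_iff, le_min_iff]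
    omega
  refine (Finset.card_le_card h1).trans ?_
  rw [Int.card_Icc]
  rcases abs_cases (t' / m - t / m - k) with ⟨h4, h5⟩ | ⟨h4, h5⟩ <;> rw [h4] <;> omega

theorem cnt_le (m D : ℕ) (hm : 0 < m) (J : Finset ℤ) (k t t' : ℤ) :
    m * (J.filter (fun i => win m D i t ∧ win m D (i + k) t')).card ≤
      (((m * (2 * D + 2) : ℕ) : ℤ) - |(t - t') - (-(m * k))|).toNat := by
  have hm' : (0 : ℤ) < m := by exact_mod_cast hm
  refine (Nat.mul_le_mul_left m (cnt m D J k t t')).trans ?_
  set d : ℤ := t' / m - t / m - k with hd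
  have h1 := Int.emod_add_mul_ediv t m
  have h2 := Int.emod_nonneg t hm'.ne'
  have h3 := Int.emod_lt_of_pos t hm'
  have h1' := Int.emod_add_mul_ediv t' m
  have h2' := Int.emod_nonneg t' hm'.ne'
  have h3' := Int.emod_lt_of_pos t' hm'
  have h4 : (t - t') - (-(m * k)) = -(m * d) + (t % m - t' % m) := by
    rw [hd]
    linear_combination (-1 : ℤ) * h1 + h1'
  have h5 : |(t - t') - (-(m * k))| ≤ m * |d| + (m - 1) := by
    rw [h4]
    refine (abs_add_le _ _).trans ?_
    rw [abs_neg, abs_mul, abs_of_pos hm']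
    have : |t % m - t' % m| ≤ m - 1 := abs_le.2 ⟨by linarith, by linarith⟩
    linarith
  rcases le_or_gt (2 * (D : ℤ) + 1 - |d|) 0 with h6 | h6
  · rw [Int.toNat_of_nonpos h6, Nat.mul_zero]
    exact Nat.zero_le _
  · have h7 : ((m * (2 * (D : ℤ) + 1 - |d|).toNat : ℕ) : ℤ) = m * (2 * (D : ℤ) + 1 - |d|) := by
      push_cast
      rw [Int.toNat_of_nonneg h6.le]
    have h8 : ((m * (2 * (D : ℤ) + 1 - |d|).toNat : ℕ) : ℤ) ≤
        ((m * (2 * D + 2) : ℕ) : ℤ) - |(t - t') - (-(m * k))| := by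
      rw [h7]
      push_cast
      nlinarith
    omega

/-- the correlation of the windows -/
theorem sum_WW (m D N M : ℕ) (hm : 0 < m) (A B : Finset ℤ) (hM : ∀ y, ovl A B y ≤ N * M)
    (J : Finset ℤ) (k : ℤ) :
    m * ∑ i ∈ J, WW m D A i * WW m D B (i + k) ≤ N * M * (m * (2 * D + 2)) ^ 2 := by
  classical
  set c : ℕ := m * (2 * D + 2) with hc
  set a : ℤ := -(m * k) with ha
  have h1 : ∑ i ∈ J, WW m D A i * WW m D B (i + k) =
      ∑ q ∈ A ×ˢ B, (J.filter (fun i => win m D i q.1 ∧ win m D (i + k) q.2)).card := by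
    have h2 : ∀ i ∈ J, WW m D A i * WW m D B (i + k) =
        ∑ q ∈ A ×ˢ B, if win m D i q.1 ∧ win m D (i + k) q.2 then 1 else 0 := by
      intro i _
      unfold WW
      rw [← Finset.card_filter, ← Finset.card_product]
      congr 1
      ext q
      simp only [Finset.mem_filter, Finset.mem_product]
      tauto
    rw [Finset.sum_congr rfl h2, Finset.sum_comm]
    refine Finset.sum_congr rfl fun q _ => ?_
    rw [Finset.card_filter]
  rw [h1, Finset.mul_sum]
  calc ∑ q ∈ A ×ˢ B, m * (J.filter (fun i => win m D i q.1 ∧ win m D (i + k) q.2)).card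
      ≤ ∑ q ∈ A ×ˢ B, ((c : ℤ) - |(q.1 - q.2) - a|).toNat :=
        Finset.sum_le_sum fun q _ => cnt_le m D hm J k q.1 q.2
    _ = ∑ q ∈ A ×ˢ B, ∑ y ∈ Finset.Icc (a - c) (a + c),
          if q.1 - q.2 = y then ((c : ℤ) - |y - a|).toNat else 0 := by
        refine Finset.sum_congr rfl fun q _ => ?_
        rw [Finset.sum_ite_eq]
        split_ifs with h
        · rfl
        · rw [Finset.mem_Icc] at h
          rcases abs_cases (q.1 - q.2 - a) with ⟨h4, h5⟩ | ⟨h4, h5⟩ <;> rw [h4] <;> omega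
    _ = ∑ y ∈ Finset.Icc (a - c) (a + c), ovl A B y * ((c : ℤ) - |y - a|).toNat := by
        rw [Finset.sum_comm]
        refine Finset.sum_congr rfl fun y _ => ?_
        rw [← Finset.sum_filter, Finset.sum_const, smul_eq_mul]
        rfl
    _ ≤ ∑ y ∈ Finset.Icc (a - c) (a + c), N * M * ((c : ℤ) - |y - a|).toNat :=
        Finset.sum_le_sum fun y _ => Nat.mul_le_mul_right _ (hM y)
    _ = N * M * c ^ 2 := by rw [← Finset.mul_sum, tent]

/-- windows in the range are full -/
theorem WW_add (m D n : ℕ) (hm : 0 < m) (A B : Finset ℤ) (hAB : A ∪ B = Finset.Icc 1 (2 * (m : ℤ)))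
    (hd : Disjoint A B) (hN : 0 < n + D) (i : ℤ) (hi : i ∈ Finset.Icc (1 : ℤ) (2 * n)) :
    WW m D (st A m (n + D)) i + WW m D (st B m (n + D)) i = (2 * D + 1) * m := by
  classical
  have hm' : (0 : ℤ) < m := by exact_mod_cast hm
  have hN' : (0 : ℤ) < ((n + D : ℕ) : ℤ) := by exact_mod_cast hN
  unfold WW
  rw [← Finset.card_union_of_disjoint, ← Finset.filter_union]
  · have h1 : (st A m (n + D) ∪ st B m (n + D)).filter (fun t => win m D i t) =
        Finset.Ico ((i - 1) * m) ((i + 2 * D) * m) := by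
      ext t
      rw [Finset.mem_filter, Finset.mem_union, mem_st, mem_st, Finset.mem_Ico]
      rw [Finset.mem_Icc] at hi
      have h2 := Int.emod_add_mul_ediv t m
      have h3 := Int.emod_nonneg t hm'.ne'
      have h4 := Int.emod_lt_of_pos t hm'
      have h5 : win m D i t ↔ ((i - 1) * m ≤ t ∧ t < (i + 2 * D) * m) := by
        unfold win
        rw [← Int.le_ediv_iff_mul_le hm', ← Int.ediv_lt_iff_lt_mul hm']
        omega
      rw [h5]
      constructor
      · exact fun h => h.2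
      · intro h
        refine ⟨?_, h⟩
        have h6 : 0 ≤ t := by
          have : 0 ≤ (i - 1) * (m : ℤ) := mul_nonneg (by linarith) hm'.le
          linarith
        have h7 : t < 2 * m * ((n + D : ℕ) : ℤ) := by
          have h8 : (i + 2 * D) * (m : ℤ) ≤ (2 * n + 2 * D) * (m : ℤ) :=
            mul_le_mul_of_nonneg_right (by linarith) hm'.le
          push_cast
          nlinarith
        have h8 : t / ((n + D : ℕ) : ℤ) + 1 ∈ Finset.Icc (1 : ℤ) (2 * m) := by
          rw [Finset.mem_Icc]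
          constructor
          · have := Int.ediv_nonneg h6 hN'.le
            linarith
          · have : t / ((n + D : ℕ) : ℤ) < 2 * m := by
              rw [Int.ediv_lt_iff_lt_mul hN']
              exact h7
            linarith
        rw [← hAB, Finset.mem_union] at h8
        rcases h8 with h9 | h9
        · exact Or.inl ⟨⟨h6, h7⟩, h9⟩
        · exact Or.inr ⟨⟨h6, h7⟩, h9⟩
    rw [h1, Int.card_Ico]
    have h2 : (i + 2 * (D : ℤ)) * m - (i - 1) * m = ((2 * D + 1) * m : ℕ) := by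
      push_cast
      ring
    rw [h2, Int.toNat_natCast]
  · apply Finset.disjoint_filter_filter
    rw [Finset.disjoint_left]
    intro t h1 h2
    exact Finset.disjoint_left.1 hd ((mem_st A m _ t).1 h1).2 ((mem_st B m _ t).1 h2).2

/-- the mass of the windows -/
theorem sum_WW_le (m D : ℕ) (C I : Finset ℤ) : ∑ i ∈ I, WW m D C i ≤ (2 * D + 1) * C.card := by
  classical
  unfold WW
  have h1 : ∑ i ∈ I, (C.filter (fun t => win m D i t)).card =
      ∑ t ∈ C, (I.filter (fun i => win m D i t)).card := by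
    simp only [Finset.card_filter]
    exact Finset.sum_comm
  rw [h1, Nat.mul_comm, ← smul_eq_mul, ← Finset.sum_const]
  refine Finset.sum_le_sum fun t _ => ?_
  have h2 : I.filter (fun i => win m D i t) ⊆ Finset.Icc (t / m + 1 - 2 * D) (t / m + 1) := by
    intro i hi
    have h3 := (Finset.mem_filter.1 hi).2
    unfold win at h3
    rw [Finset.mem_Icc]
    omega
  refine (Finset.card_le_card h2).trans ?_
  rw [Int.card_Icc]
  omega

/-- **smearing** -/
theorem smear (m n D M : ℕ) (hm : 0 < m) (hn : 0 < n) (A B : Finset ℤ)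
    (hAB : A ∪ B = Finset.Icc 1 (2 * (m : ℤ))) (hd : Disjoint A B) (hA : A.card = m)
    (hB : B.card = m) (hM : ∀ k, ovl A B k ≤ M) :
    ∃ p : ℤ → ℝ, (∀ i ∈ Finset.Icc (1 : ℤ) (2 * n), 0 ≤ p i ∧ p i ≤ 1) ∧
      (∀ k : ℤ, SF (Finset.Icc 1 (2 * n)) k p ≤
        (M : ℝ) / m * ((n + D : ℝ) * ((2 * D + 2) / (2 * D + 1)) ^ 2)) ∧
      |∑ i ∈ Finset.Icc (1 : ℤ) (2 * n), p i - n| ≤ D := by
  classical
  set N := n + D with hN
  have hN0 : 0 < N := by omega
  set W : ℝ := (((2 * D + 1) * m : ℕ) : ℝ) with hW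
  have hm' : (0 : ℝ) < m := by exact_mod_cast hm
  have hW0 : 0 < W := by
    rw [hW]
    exact_mod_cast Nat.mul_pos (Nat.succ_pos _) hm
  set a := st A m N with ha
  set b := st B m N with hb
  have hadd : ∀ i ∈ Finset.Icc (1 : ℤ) (2 * n), (WW m D a i : ℝ) + WW m D b i = W := by
    intro i hi
    rw [hW]
    exact_mod_cast WW_add m D n hm A B hAB hd hN0 i hi
  have hmass : ∀ C : Finset ℤ, C.card = m →
      ∑ i ∈ Finset.Icc (1 : ℤ) (2 * n), (WW m D (st C m N) i : ℝ) ≤ W * N := by
    intro C hC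
    have h1 := sum_WW_le m D (st C m N) (Finset.Icc (1 : ℤ) (2 * n))
    have h2 := card_st_le C m N hN0
    rw [hC] at h2
    have h3 : ∑ i ∈ Finset.Icc (1 : ℤ) (2 * n), WW m D (st C m N) i ≤ (2 * D + 1) * m * N := by
      refine h1.trans ?_
      calc (2 * D + 1) * (st C m N).card ≤ (2 * D + 1) * (N * m) := Nat.mul_le_mul_left _ h2
        _ = (2 * D + 1) * m * N := by ring
    rw [hW]
    exact_mod_cast h3
  refine ⟨fun i => (WW m D a i : ℝ) / W, ?_, ?_, ?_⟩
  · intro i hi
    refine ⟨by positivity, ?_⟩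
    rw [div_le_one hW0]
    have h1 := hadd i hi
    have h2 : (0 : ℝ) ≤ WW m D b i := Nat.cast_nonneg _
    linarith
  · intro k
    unfold SF
    set J := (Finset.Icc (1 : ℤ) (2 * n)).filter (fun i => i + k ∈ Finset.Icc (1 : ℤ) (2 * n)) with hJ
    have h1 : ∑ i ∈ J, (WW m D a i : ℝ) / W * (1 - (WW m D a (i + k) : ℝ) / W) =
        ((∑ i ∈ J, WW m D a i * WW m D b (i + k) : ℕ) : ℝ) / W ^ 2 := by
      push_cast
      rw [Finset.sum_div]
      refine Finset.sum_congr rfl fun i hi => ?_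
      have h2 := hadd (i + k) (Finset.mem_filter.1 hi).2
      have h3 : 1 - (WW m D a (i + k) : ℝ) / W = (WW m D b (i + k) : ℝ) / W := by
        rw [eq_div_iff hW0.ne', sub_mul, div_mul_cancel₀ _ hW0.ne']
        linarith
      rw [h3]
      field_simp
    rw [h1]
    have h4 := sum_WW m D N M hm a b (ovl_st A B m N hN0 M hM) J k
    have h5 : (m : ℝ) * ((∑ i ∈ J, WW m D a i * WW m D b (i + k) : ℕ) : ℝ) ≤
        N * M * (m * (2 * D + 2)) ^ 2 := by exact_mod_cast h4
    have hD : (0 : ℝ) < 2 * D + 1 := by positivity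
    have h6 : (M : ℝ) / m * ((n + D : ℝ) * ((2 * D + 2) / (2 * D + 1)) ^ 2) =
        (N * M * (m * (2 * D + 2)) ^ 2) / (m * W ^ 2) := by
      rw [hW, hN]
      push_cast
      field_simp
    rw [h6, div_le_div_iff₀ (by positivity) (by positivity)]
    calc ((∑ i ∈ J, WW m D a i * WW m D b (i + k) : ℕ) : ℝ) * (m * W ^ 2) =
        (m * ((∑ i ∈ J, WW m D a i * WW m D b (i + k) : ℕ) : ℝ)) * W ^ 2 := by ring
      _ ≤ (N * M * (m * (2 * D + 2)) ^ 2) * W ^ 2 := mul_le_mul_of_nonneg_right h5 (sq_nonneg _)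
  · have h1 := hmass A hA
    have h2 := hmass B hB
    have h3 : ∑ i ∈ Finset.Icc (1 : ℤ) (2 * n), (WW m D a i : ℝ) +
        ∑ i ∈ Finset.Icc (1 : ℤ) (2 * n), (WW m D b i : ℝ) = W * (2 * n) := by
      rw [← Finset.sum_add_distrib, Finset.sum_congr rfl hadd, Finset.sum_const, Int.card_Icc,
        nsmul_eq_mul]
      have h4 : (2 * (n : ℤ) + 1 - 1).toNat = 2 * n := by omega
      rw [h4]
      push_cast
      ring
    have h5 : ∑ i ∈ Finset.Icc (1 : ℤ) (2 * n), (WW m D a i : ℝ) / W =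
        (∑ i ∈ Finset.Icc (1 : ℤ) (2 * n), (WW m D a i : ℝ)) / W := by rw [Finset.sum_div]
    rw [h5]
    have hNr : (N : ℝ) = n + D := by rw [hN]; push_cast; ring
    rw [hNr] at h1 h2
    rw [abs_le]
    constructor
    · have h6 : (n : ℝ) - D ≤ (∑ i ∈ Finset.Icc (1 : ℤ) (2 * n), (WW m D a i : ℝ)) / W := by
        rw [le_div_iff₀ hW0]
        have : (∑ i ∈ Finset.Icc (1 : ℤ) (2 * n), (WW m D b i : ℝ)) ≤ W * (n + D) := h2
        nlinarith
      linarith
    · have h6 : (∑ i ∈ Finset.Icc (1 : ℤ) (2 * n), (WW m D a i : ℝ)) / W ≤ n + D := by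
        rw [div_le_iff₀ hW0]
        have : (∑ i ∈ Finset.Icc (1 : ℤ) (2 * n), (WW m D a i : ℝ)) ≤ W * (n + D) := h1
        linarith
      linarith

end Pool.Agent.Work.MP_62db8e_nt.Sw
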