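import Pool.Agent.Work.MP_62db8e_nt.Sw.Ker
import Pool.Agent.Work.MP_62db8e_nt.Sw.Smear

set_option autoImplicit false

/-! Smoothing with the band-limited kernel: step functions with `R` steps and error `O(1)`. -/

namespace Pool.Agent.Work.MP_62db8e_nt.Sw

open Finset

theorem count_out (c R : ℕ) (hc : 0 < c) (x : ℤ) :
    (c : ℤ) * ((Finset.Icc (1 : ℤ) R).filter (fun i => ¬ (c * i - c * R < x ∧ x ≤ c * i))).card ≤
      |x| + c := by
  have hc' : (0 : ℤ) < c := by exact_mod_cast hc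
  rcases le_or_gt x 0 with hx | hx
  · have h1 : (Finset.Icc (1 : ℤ) R).filter (fun i => ¬ (c * i - c * R < x ∧ x ≤ c * i)) ⊆
        Finset.Icc ((R : ℤ) - (-x) / c) R := by
      intro i hi
      obtain ⟨h2, h3⟩ := Finset.mem_filter.1 hi
      rw [Finset.mem_Icc] at h2 ⊢
      refine ⟨?_, h2.2⟩
      have h4 : x ≤ c * i := by nlinarith
      have h5 : ¬ (c * i - c * R < x) := fun h => h3 ⟨h, h4⟩
      have h6 : ((R : ℤ) - i) ≤ (-x) / c := by
        rw [Int.le_ediv_iff_mul_le hc']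
        nlinarith
      linarith
    have h2 := Finset.card_le_card h1
    rw [Int.card_Icc] at h2
    have h3 : 0 ≤ (-x) / (c : ℤ) := Int.ediv_nonneg (by linarith) hc'.le
    have h4 : ((R : ℤ) + 1 - (R - (-x) / c)).toNat = ((-x) / (c : ℤ) + 1).toNat := by
      congr 1
      ring
    rw [h4] at h2
    have h5 : (((Finset.Icc (1 : ℤ) R).filter
        (fun i => ¬ (c * i - c * R < x ∧ x ≤ c * i))).card : ℤ) ≤ (-x) / c + 1 := by omega
    have h6 := Int.mul_ediv_self_le (x := -x) (k := (c : ℤ)) hc'.ne'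
    rw [abs_of_nonpos hx]
    calc (c : ℤ) * ((Finset.Icc (1 : ℤ) R).filter
          (fun i => ¬ (c * i - c * R < x ∧ x ≤ c * i))).card ≤ c * ((-x) / c + 1) :=
          mul_le_mul_of_nonneg_left h5 hc'.le
      _ = c * ((-x) / c) + c := by ring
      _ ≤ -x + c := by linarith
  · have h1 : (Finset.Icc (1 : ℤ) R).filter (fun i => ¬ (c * i - c * R < x ∧ x ≤ c * i)) ⊆
        Finset.Icc 1 (x / c) := by
      intro i hi
      obtain ⟨h2, h3⟩ := Finset.mem_filter.1 hi
      rw [Finset.mem_Icc] at h2 ⊢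
      refine ⟨h2.1, ?_⟩
      have h4 : (c : ℤ) * i - c * R < x := by nlinarith
      have h5 : ¬ (x ≤ c * i) := fun h => h3 ⟨h4, h⟩
      rw [Int.le_ediv_iff_mul_le hc']
      nlinarith
    have h2 := Finset.card_le_card h1
    rw [Int.card_Icc] at h2
    have h3 : 0 ≤ x / (c : ℤ) := Int.ediv_nonneg hx.le hc'.le
    have h5 : (((Finset.Icc (1 : ℤ) R).filter
        (fun i => ¬ (c * i - c * R < x ∧ x ≤ c * i))).card : ℤ) ≤ x / c := by omega
    have h6 := Int.mul_ediv_self_le (x := x) (k := (c : ℤ)) hc'.ne'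
    rw [abs_of_pos hx]
    calc (c : ℤ) * ((Finset.Icc (1 : ℤ) R).filter
          (fun i => ¬ (c * i - c * R < x ∧ x ≤ c * i))).card ≤ c * (x / c) :=
          mul_le_mul_of_nonneg_left h5 hc'.le
      _ ≤ x + c := by linarith

/-- sums over differences -/
theorem sum_diff (c R K : ℕ) (A B : Finset ℤ) (hA : A ⊆ Finset.Ico 0 ((c * R : ℕ) : ℤ))
    (hB : B ⊆ Finset.Ico 0 ((c * R : ℕ) : ℤ)) (hK : ∀ y, ovl A B y ≤ K) (f : ℤ → ℝ)
    (hf : ∀ y, 0 ≤ f y) :
    ∑ t ∈ A, ∑ t' ∈ B, f (t - t') ≤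
      K * ∑ y ∈ Finset.Ioc (-((c * R : ℕ) : ℤ)) (c * R : ℕ), f y := by
  classical
  rw [← Finset.sum_product']
  calc ∑ q ∈ A ×ˢ B, f (q.1 - q.2)
      = ∑ q ∈ A ×ˢ B, ∑ y ∈ Finset.Ioc (-((c * R : ℕ) : ℤ)) (c * R : ℕ),
          if q.1 - q.2 = y then f y else 0 := by
        refine Finset.sum_congr rfl fun q hq => ?_
        obtain ⟨h1, h2⟩ := Finset.mem_product.1 hq
        have h3 := Finset.mem_Ico.1 (hA h1)
        have h4 := Finset.mem_Ico.1 (hB h2)
        rw [Finset.sum_ite_eq, if_pos]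
        rw [Finset.mem_Ioc]
        omega
    _ = ∑ y ∈ Finset.Ioc (-((c * R : ℕ) : ℤ)) (c * R : ℕ), (ovl A B y : ℝ) * f y := by
        rw [Finset.sum_comm]
        refine Finset.sum_congr rfl fun y _ => ?_
        rw [← Finset.sum_filter, Finset.sum_const, nsmul_eq_mul]
        rfl
    _ ≤ ∑ y ∈ Finset.Ioc (-((c * R : ℕ) : ℤ)) (c * R : ℕ), (K : ℝ) * f y :=
        Finset.sum_le_sum fun y _ => mul_le_mul_of_nonneg_right (by exact_mod_cast hK y) (hf y)
    _ = K * ∑ y ∈ Finset.Ioc (-((c * R : ℕ) : ℤ)) (c * R : ℕ), f y := by rw [Finset.mul_sum]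

theorem band (c R K : ℕ) (hc : 0 < c) (hR : 0 < R) (A B : Finset ℤ)
    (hAB : A ∪ B = Finset.Ico 0 ((c * R : ℕ) : ℤ)) (hd : Disjoint A B)
    (hK : ∀ y, ovl A B y ≤ K) :
    ∃ h : ℤ → ℝ, (∀ i ∈ Finset.Icc (1 : ℤ) R, 0 ≤ h i ∧ h i ≤ 1) ∧
      (∀ k : ℤ, SF (Finset.Icc 1 R) k h ≤ (K : ℝ) / c + 207 / 80) ∧
      ∑ i ∈ Finset.Icc (1 : ℤ) R, h i ≤ (A.card : ℝ) / c ∧
      (R : ℝ) - (B.card : ℝ) / c - 207 / 80 ≤ ∑ i ∈ Finset.Icc (1 : ℤ) R, h i := by
  classical
  obtain ⟨w, hw0, hwper, hw1, hwex, hwex2, hwm⟩ := kernel c R hc hR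
  set Q := c * (2 * R) with hQd
  have hcr : (0 : ℝ) < c := by exact_mod_cast hc
  have hcz : (0 : ℤ) < c := by exact_mod_cast hc
  have hAs : A ⊆ Finset.Ico 0 ((c * R : ℕ) : ℤ) := by rw [← hAB]; exact Finset.subset_union_left
  have hBs : B ⊆ Finset.Ico 0 ((c * R : ℕ) : ℤ) := by rw [← hAB]; exact Finset.subset_union_right
  have hdom : (-((c * R : ℕ) : ℤ)) + Q = ((c * R : ℕ) : ℤ) := by
    rw [hQd]
    push_cast
    ring
  have htot : ∀ s : ℤ, ∑ y ∈ Finset.Ioc (-((c * R : ℕ) : ℤ)) (c * R : ℕ), w (y + s) = 1 := by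
    intro s
    have h1 := per_Ioc (fun y => w (y + s)) Q (fun x => by
      have : x + Q + s = (x + s) + Q := by ring
      show w (x + Q + s) = w (x + s)
      rw [this, hwper]) (-((c * R : ℕ) : ℤ))
    rw [hdom] at h1
    rw [h1, per_shift w Q hwper s, hw1]
  set h : ℤ → ℝ := fun i => ∑ t ∈ A, w (c * i - t) with hh
  set g : ℤ → ℝ := fun i => ∑ t ∈ B, w (c * i - t) with hg
  have hh0 : ∀ i, 0 ≤ h i := fun i => Finset.sum_nonneg fun _ _ => hw0 _
  have hg0 : ∀ i, 0 ≤ g i := fun i => Finset.sum_nonneg fun _ _ => hw0 _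
  have hper : ∀ (C : Finset ℤ) (i : ℤ), ∑ t ∈ C, w (c * (i + (2 * R : ℕ)) - t) =
      ∑ t ∈ C, w (c * i - t) := by
    intro C i
    refine Finset.sum_congr rfl fun t _ => ?_
    have : (c : ℤ) * (i + (2 * R : ℕ)) - t = (c * i - t) + Q := by
      rw [hQd]
      push_cast
      ring
    rw [this, hwper]
  -- the defect
  set τ : ℤ → ℝ := fun i => ∑ x ∈ (Finset.Ioc (-((c * R : ℕ) : ℤ)) (c * R : ℕ)).filter
    (fun x => ¬ (c * i - c * R < x ∧ x ≤ c * i)), w x with hτ
  have hτ0 : ∀ i, 0 ≤ τ i := fun i => Finset.sum_nonneg fun _ _ => hw0 _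
  have hsum : ∀ i ∈ Finset.Icc (1 : ℤ) R, h i + g i + τ i = 1 := by
    intro i hi
    rw [Finset.mem_Icc] at hi
    have h1 : h i + g i = ∑ x ∈ (Finset.Ioc (-((c * R : ℕ) : ℤ)) (c * R : ℕ)).filter
        (fun x => c * i - c * R < x ∧ x ≤ c * i), w x := by
      show ∑ t ∈ A, w (c * i - t) + ∑ t ∈ B, w (c * i - t) = _
      rw [← Finset.sum_union hd, hAB]
      refine Finset.sum_nbij' (fun t => c * i - t) (fun x => c * i - x) ?_ ?_ ?_ ?_ ?_
      · intro t ht
        rw [Finset.mem_Ico] at ht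
        rw [Finset.mem_filter, Finset.mem_Ioc]
        push_cast at ht ⊢
        have h2 : (c : ℤ) * 1 ≤ c * i := mul_le_mul_of_nonneg_left hi.1 hcz.le
        have h3 : (c : ℤ) * i ≤ c * R := mul_le_mul_of_nonneg_left hi.2 hcz.le
        refine ⟨⟨?_, ?_⟩, ?_, ?_⟩ <;> linarith
      · intro x hx
        rw [Finset.mem_filter, Finset.mem_Ioc] at hx
        rw [Finset.mem_Ico]
        push_cast at hx ⊢
        constructor <;> linarith [hx.2.1, hx.2.2]
      · intro t _
        show (c : ℤ) * i - (c * i - t) = t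
        ring
      · intro t _
        show (c : ℤ) * i - (c * i - t) = t
        ring
      · intro t _
        rfl
    rw [h1, hτ]
    show _ + ∑ x ∈ (Finset.Ioc (-((c * R : ℕ) : ℤ)) (c * R : ℕ)).filter
      (fun x => ¬ (c * i - c * R < x ∧ x ≤ c * i)), w x = 1
    rw [Finset.sum_filter_add_sum_filter_not]
    have h2 := htot 0
    simpa using h2
  have hτsum : ∑ i ∈ Finset.Icc (1 : ℤ) R, τ i ≤ 207 / 80 := by
    have h1 : ∑ i ∈ Finset.Icc (1 : ℤ) R, τ i =
        ∑ x ∈ Finset.Ioc (-((c * R : ℕ) : ℤ)) (c * R : ℕ), w x *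
          ((Finset.Icc (1 : ℤ) R).filter (fun i => ¬ (c * i - c * R < x ∧ x ≤ c * i))).card := by
      simp only [hτ, Finset.sum_filter]
      rw [Finset.sum_comm]
      refine Finset.sum_congr rfl fun x _ => ?_
      rw [← Finset.sum_filter, Finset.sum_const, nsmul_eq_mul, mul_comm]
    rw [h1]
    have h2 : ∀ x ∈ Finset.Ioc (-((c * R : ℕ) : ℤ)) (c * R : ℕ), w x *
          ((Finset.Icc (1 : ℤ) R).filter (fun i => ¬ (c * i - c * R < x ∧ x ≤ c * i))).card ≤
        w x * |(x : ℝ)| * (1 / c) + w x := by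
      intro x _
      have h3 := count_out c R hc x
      have h4 : (c : ℝ) * (((Finset.Icc (1 : ℤ) R).filter
          (fun i => ¬ (c * i - c * R < x ∧ x ≤ c * i))).card : ℝ) ≤ |(x : ℝ)| + c := by
        exact_mod_cast h3
      have h5 : (((Finset.Icc (1 : ℤ) R).filter
          (fun i => ¬ (c * i - c * R < x ∧ x ≤ c * i))).card : ℝ) ≤ |(x : ℝ)| * (1 / c) + 1 := by
        have h6 : |(x : ℝ)| * (1 / c) + 1 = (|(x : ℝ)| + c) / c := by field_simp
        rw [h6, le_div_iff₀ hcr]
        linarith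
      calc w x * _ ≤ w x * (|(x : ℝ)| * (1 / c) + 1) := mul_le_mul_of_nonneg_left h5 (hw0 x)
        _ = _ := by ring
    refine (Finset.sum_le_sum h2).trans ?_
    rw [Finset.sum_add_distrib, ← Finset.sum_mul]
    have h3 := htot 0
    simp only [add_zero] at h3
    rw [h3]
    have h4 : (∑ x ∈ Finset.Ioc (-((c * R : ℕ) : ℤ)) (c * R : ℕ), w x * |(x : ℝ)|) * (1 / c) ≤
        127 / 80 * c * (1 / c) := mul_le_mul_of_nonneg_right hwm (by positivity)
    have h5 : 127 / 80 * (c : ℝ) * (1 / c) = 127 / 80 := by field_simp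
    linarith
  have hh1 : ∀ i ∈ Finset.Icc (1 : ℤ) R, h i ≤ 1 := by
    intro i hi
    have := hsum i hi
    linarith [hg0 i, hτ0 i]
  -- masses
  have hmass : ∀ C : Finset ℤ, ∑ i ∈ Finset.Icc (1 : ℤ) R, (∑ t ∈ C, w (c * i - t)) ≤
      (C.card : ℝ) / c := by
    intro C
    have h1 : ∑ i ∈ Finset.Icc (1 : ℤ) R, (∑ t ∈ C, w (c * i - t)) ≤
        ∑ i ∈ Finset.Ioc (0 : ℤ) (0 + (2 * R : ℕ)), (∑ t ∈ C, w (c * i - t)) := by
      refine Finset.sum_le_sum_of_subset_of_nonneg ?_ fun i _ _ =>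
        Finset.sum_nonneg fun _ _ => hw0 _
      intro i hi
      rw [Finset.mem_Icc] at hi
      rw [Finset.mem_Ioc]
      push_cast
      omega
    refine h1.trans ?_
    rw [per_Ioc (fun i => ∑ t ∈ C, w (c * i - t)) (2 * R) (hper C) 0, Finset.sum_comm]
    refine le_of_eq ?_
    have h2 : ∀ t ∈ C, ∑ i ∈ range (2 * R), w (c * i - t) = 1 / c := by
      intro t _
      have := hwex (-t)
      simpa [sub_eq_add_neg] using this
    rw [Finset.sum_congr rfl h2, Finset.sum_const, nsmul_eq_mul]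
    ring
  refine ⟨h, fun i hi => ⟨hh0 i, hh1 i hi⟩, ?_, hmass A, ?_⟩
  · intro k
    unfold SF
    set J := (Finset.Icc (1 : ℤ) R).filter (fun i => i + k ∈ Finset.Icc (1 : ℤ) R) with hJ
    have h1 : ∑ i ∈ J, h i * (1 - h (i + k)) = ∑ i ∈ J, h i * g (i + k) + ∑ i ∈ J, h i * τ (i + k) := by
      rw [← Finset.sum_add_distrib]
      refine Finset.sum_congr rfl fun i hi => ?_
      have := hsum (i + k) (Finset.mem_filter.1 hi).2
      have h2 : 1 - h (i + k) = g (i + k) + τ (i + k) := by linarith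
      rw [h2]
      ring
    rw [h1]
    have h2 : ∑ i ∈ J, h i * τ (i + k) ≤ 207 / 80 := by
      calc ∑ i ∈ J, h i * τ (i + k) ≤ ∑ i ∈ J, τ (i + k) := by
            refine Finset.sum_le_sum fun i hi => ?_
            have := mul_le_mul_of_nonneg_right (hh1 i (Finset.mem_filter.1 hi).1) (hτ0 (i + k))
            linarith
        _ ≤ ∑ i ∈ Finset.Icc (1 : ℤ) R, τ i := by
            have h3 : ∑ i ∈ J, τ (i + k) = ∑ j ∈ J.image (fun i => i + k), τ j := by
              rw [Finset.sum_image]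
              intro a _ b _ hab
              have : a + k = b + k := hab
              omega
            rw [h3]
            refine Finset.sum_le_sum_of_subset_of_nonneg ?_ fun i _ _ => hτ0 i
            intro j hj
            obtain ⟨i, hi, rfl⟩ := Finset.mem_image.1 hj
            exact (Finset.mem_filter.1 hi).2
        _ ≤ 207 / 80 := hτsum
    have h3 : ∑ i ∈ J, h i * g (i + k) ≤ (K : ℝ) / c := by
      calc ∑ i ∈ J, h i * g (i + k) ≤
          ∑ i ∈ Finset.Ioc (0 : ℤ) (0 + (2 * R : ℕ)), h i * g (i + k) := by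
            refine Finset.sum_le_sum_of_subset_of_nonneg ?_ fun i _ _ =>
              mul_nonneg (hh0 i) (hg0 _)
            intro i hi
            have := Finset.mem_Icc.1 (Finset.mem_filter.1 hi).1
            rw [Finset.mem_Ioc]
            push_cast
            omega
        _ = ∑ i ∈ range (2 * R), h i * g (i + k) := by
            refine per_Ioc (fun i => h i * g (i + k)) (2 * R) (fun x => ?_) 0
            have e1 := hper A x
            have e2 := hper B (x + k)
            have e3 : x + (2 * R : ℕ) + k = x + k + (2 * R : ℕ) := by ring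
            show h (x + (2 * R : ℕ)) * g (x + (2 * R : ℕ) + k) = h x * g (x + k)
            rw [e3]
            show (∑ t ∈ A, w (c * (x + (2 * R : ℕ)) - t)) *
              (∑ t ∈ B, w (c * (x + k + (2 * R : ℕ)) - t)) = _
            rw [e1, e2]
        _ = ∑ t ∈ A, ∑ t' ∈ B, ∑ i ∈ range (2 * R), w (c * i + -t) * w (c * i + (c * k - t')) := by
            have e1 : ∀ i ∈ range (2 * R), h (i : ℤ) * g ((i : ℤ) + k) =
                ∑ t ∈ A, ∑ t' ∈ B, w (c * i + -t) * w (c * i + (c * k - t')) := by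
              intro i _
              show (∑ t ∈ A, w (c * i - t)) * (∑ t ∈ B, w (c * (i + k) - t)) = _
              rw [Finset.sum_mul_sum]
              refine Finset.sum_congr rfl fun t _ => Finset.sum_congr rfl fun t' _ => ?_
              congr 2; ring
            rw [Finset.sum_congr rfl e1, Finset.sum_comm]
            refine Finset.sum_congr rfl fun t _ => ?_
            rw [Finset.sum_comm]
        _ = ∑ t ∈ A, ∑ t' ∈ B, 1 / c * ∑ u ∈ range Q, w u * w (t - t' + (u + c * k)) := by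
            refine Finset.sum_congr rfl fun t _ => Finset.sum_congr rfl fun t' _ => ?_
            rw [hwex2]
            congr 1
            rw [← per_shift (fun u => w u * w (t - t' + (u + c * k))) Q (fun x => by
              have e2 : t - t' + (x + Q + c * k) = (t - t' + (x + c * k)) + Q := by ring
              show w (x + Q) * w (t - t' + (x + Q + c * k)) = w x * w (t - t' + (x + c * k))
              rw [e2, hwper, hwper]) (-t)]
            refine Finset.sum_congr rfl fun u _ => ?_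
            congr 2
            ring
        _ = 1 / c * ∑ u ∈ range Q, w u * ∑ t ∈ A, ∑ t' ∈ B, w (t - t' + (u + c * k)) := by
            simp only [← Finset.mul_sum]
            congr 1
            have e1 : ∀ t ∈ A, ∑ t' ∈ B, ∑ u ∈ range Q, w u * w (t - t' + (u + c * k)) =
                ∑ u ∈ range Q, ∑ t' ∈ B, w u * w (t - t' + (u + c * k)) := fun t _ =>
              Finset.sum_comm
            rw [Finset.sum_congr rfl e1, Finset.sum_comm]
            refine Finset.sum_congr rfl fun u _ => ?_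
            rw [Finset.mul_sum]
            refine Finset.sum_congr rfl fun t _ => ?_
            rw [Finset.mul_sum]
        _ ≤ 1 / c * ∑ u ∈ range Q, w u * K := by
            refine mul_le_mul_of_nonneg_left (Finset.sum_le_sum fun u _ => ?_) (by positivity)
            refine mul_le_mul_of_nonneg_left ?_ (hw0 u)
            have e1 := sum_diff c R K A B hAs hBs hK (fun y => w (y + (u + c * k))) (fun _ => hw0 _)
            rw [htot, mul_one] at e1
            exact e1
        _ = (K : ℝ) / c := by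
            rw [← Finset.sum_mul, hw1]
            ring
    linarith
  · have h1 := hmass B
    have h2 : ∑ i ∈ Finset.Icc (1 : ℤ) R, h i + ∑ i ∈ Finset.Icc (1 : ℤ) R, g i +
        ∑ i ∈ Finset.Icc (1 : ℤ) R, τ i = R := by
      rw [← Finset.sum_add_distrib, ← Finset.sum_add_distrib, Finset.sum_congr rfl hsum,
        Finset.sum_const, Int.card_Icc, nsmul_eq_mul, mul_one]
      have : ((R : ℤ) + 1 - 1).toNat = R := by omega
      rw [this]
    have h3 : ∑ i ∈ Finset.Icc (1 : ℤ) R, g i ≤ (B.card : ℝ) / c := h1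
    linarith

end Pool.Agent.Work.MP_62db8e_nt.Sw
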