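import Mathlib

set_option autoImplicit false

/-! A nonnegative band-limited kernel on the cyclic group of order `2 c R`, with bounded first moment:
sums over the multiples of `c` are exact. -/

namespace Pool.Agent.Work.MP_62db8e_nt.Sw

open Finset ComplexConjugate

/-! ### periodic sums -/

theorem per_shift {β : Type} [AddCommGroup β] (F : ℤ → β) (Q : ℕ) (h : ∀ x, F (x + Q) = F x)
    (s : ℤ) : ∑ i ∈ range Q, F (i + s) = ∑ i ∈ range Q, F i := by
  have step : ∀ s : ℤ, ∑ i ∈ range Q, F (i + (s + 1)) = ∑ i ∈ range Q, F (i + s) := by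
    intro s
    have h1 := Finset.sum_range_succ (fun i : ℕ => F (i + s)) Q
    have h2 := Finset.sum_range_succ' (fun i : ℕ => F (i + s)) Q
    rw [h1] at h2
    have h3 : F ((Q : ℤ) + s) = F s := by rw [add_comm]; exact h s
    have h4 : F (((0 : ℕ) : ℤ) + s) = F s := by simp
    rw [h3, h4] at h2
    have h5 := add_right_cancel h2
    rw [h5]
    refine Finset.sum_congr rfl fun i _ => ?_
    congr 1
    push_cast
    ring
  induction s using Int.induction_on with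
  | zero => simp
  | succ s ih => rw [step]; exact ih
  | pred s ih =>
    have h1 := step (-(s : ℤ) - 1)
    rw [← h1]
    rw [← ih]
    refine Finset.sum_congr rfl fun i _ => ?_
    congr 1
    ring

theorem per_Ioc {β : Type} [AddCommGroup β] (F : ℤ → β) (Q : ℕ) (h : ∀ x, F (x + Q) = F x)
    (a : ℤ) : ∑ x ∈ Finset.Ioc a (a + Q), F x = ∑ i ∈ range Q, F i := by
  rw [← per_shift F Q h (a + 1)]
  refine Finset.sum_nbij' (fun x => (x - (a + 1)).toNat) (fun i => (i : ℤ) + (a + 1)) ?_ ?_ ?_ ?_ ?_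
  · intro x hx
    rw [Finset.mem_Ioc] at hx
    rw [Finset.mem_range]
    omega
  · intro i hi
    rw [Finset.mem_range] at hi
    rw [Finset.mem_Ioc]
    omega
  · intro x hx
    rw [Finset.mem_Ioc] at hx
    omega
  · intro i _
    omega
  · intro x hx
    rw [Finset.mem_Ioc] at hx
    congr 1
    omega

theorem sum_decomp {β : Type} [AddCommMonoid β] (f : ℕ → β) (c L : ℕ) :
    ∑ x ∈ range (c * L), f x = ∑ i ∈ range L, ∑ r ∈ range c, f (c * i + r) := by
  induction L with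
  | zero => simp
  | succ L ih => rw [Nat.mul_succ, Finset.sum_range_add, ih, Finset.sum_range_succ]

/-! ### characters -/

/-- `e(x/N)` -/
noncomputable def ee (N : ℕ) (x : ℤ) : ℂ := Complex.exp (2 * Real.pi * Complex.I * x / N)

theorem ee_add (N : ℕ) (x y : ℤ) : ee N (x + y) = ee N x * ee N y := by
  unfold ee
  rw [← Complex.exp_add]
  congr 1
  push_cast
  ring

theorem ee_zero (N : ℕ) : ee N 0 = 1 := by
  unfold ee
  simp

theorem ee_mul_N (N : ℕ) (hN : 0 < N) (k : ℤ) : ee N (N * k) = 1 := by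
  unfold ee
  rw [Complex.exp_eq_one_iff]
  refine ⟨k, ?_⟩
  have : (N : ℂ) ≠ 0 := by exact_mod_cast hN.ne'
  push_cast
  field_simp

theorem ee_add_mul (N : ℕ) (hN : 0 < N) (x k : ℤ) : ee N (x + N * k) = ee N x := by
  rw [ee_add, ee_mul_N N hN, mul_one]

theorem ee_pow (N : ℕ) (x : ℤ) (j : ℕ) : ee N x ^ j = ee N (j * x) := by
  unfold ee
  rw [← Complex.exp_nat_mul]
  congr 1
  push_cast
  ring

theorem ee_conj (N : ℕ) (x : ℤ) : conj (ee N x) = ee N (-x) := by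
  unfold ee
  rw [← Complex.exp_conj]
  congr 1
  simp [Complex.conj_ofReal, map_ofNat]

theorem ee_re (N : ℕ) (x : ℤ) : (ee N x).re = Real.cos (2 * Real.pi * x / N) := by
  unfold ee
  have h : (2 * Real.pi * Complex.I * x / N : ℂ) = ((2 * Real.pi * x / N : ℝ) : ℂ) * Complex.I := by
    push_cast
    ring
  rw [h, Complex.exp_ofReal_mul_I_re]

theorem ee_norm (N : ℕ) (x : ℤ) : ‖ee N x‖ = 1 := by
  unfold ee
  have h : (2 * Real.pi * Complex.I * x / N : ℂ) = ((2 * Real.pi * x / N : ℝ) : ℂ) * Complex.I := by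
    push_cast
    ring
  rw [h, Complex.norm_exp_ofReal_mul_I]

/-- orthogonality -/
theorem geo (N : ℕ) (hN : 0 < N) (ξ : ℤ) (h : ¬ (N : ℤ) ∣ ξ) :
    ∑ i ∈ range N, ee N (ξ * i) = 0 := by
  have h1 : ee N ξ ≠ 1 := by
    intro h2
    unfold ee at h2
    rw [Complex.exp_eq_one_iff] at h2
    obtain ⟨n, hn⟩ := h2
    have hNc : (N : ℂ) ≠ 0 := by exact_mod_cast hN.ne'
    have h3 : (2 * Real.pi * Complex.I : ℂ) ≠ 0 := by
      simp [Real.pi_ne_zero]
    have h4 : (ξ : ℂ) = N * n := by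
      have h5 : (2 * Real.pi * Complex.I : ℂ) * ξ = (2 * Real.pi * Complex.I) * (N * n) := by
        field_simp at hn
        linear_combination (2 * Real.pi * Complex.I) * hn
      exact mul_left_cancel₀ h3 h5
    exact h ⟨n, by exact_mod_cast h4⟩
  have h2 : ∀ i ∈ range N, ee N (ξ * i) = ee N ξ ^ i := by
    intro i _
    rw [ee_pow, mul_comm]
  rw [Finset.sum_congr rfl h2, geom_sum_eq h1, ee_pow, ee_mul_N N hN, sub_self, zero_div]

/-- trigonometric polynomials of degree at most `d` -/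
def BL (N : ℕ) (d : ℤ) (F : ℤ → ℂ) : Prop :=
  ∃ (κ : Type) (s : Finset κ) (c : κ → ℂ) (ξ : κ → ℤ), (∀ k ∈ s, |ξ k| ≤ d) ∧
    ∀ x, F x = ∑ k ∈ s, c k * ee N (ξ k * x)

theorem BL.mul {N : ℕ} {d d' : ℤ} {F G : ℤ → ℂ} (hF : BL N d F) (hG : BL N d' G) :
    BL N (d + d') (fun x => F x * G x) := by
  obtain ⟨κ, s, c, ξ, h1, h2⟩ := hF
  obtain ⟨κ', s', c', ξ', h1', h2'⟩ := hG
  refine ⟨κ × κ', s ×ˢ s', fun k => c k.1 * c' k.2, fun k => ξ k.1 + ξ' k.2, ?_, ?_⟩
  · intro k hk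
    obtain ⟨h3, h4⟩ := Finset.mem_product.1 hk
    exact (abs_add_le _ _).trans (add_le_add (h1 _ h3) (h1' _ h4))
  · intro x
    show F x * G x = _
    rw [h2, h2', Finset.sum_mul_sum, Finset.sum_product]
    refine Finset.sum_congr rfl fun k _ => Finset.sum_congr rfl fun k' _ => ?_
    show _ = c k * c' k' * ee N ((ξ k + ξ' k') * x)
    rw [add_mul, ee_add]
    ring

theorem BL.shift {N : ℕ} {d : ℤ} {F : ℤ → ℂ} (hF : BL N d F) (t : ℤ) :
    BL N d (fun x => F (x + t)) := by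
  obtain ⟨κ, s, c, ξ, h1, h2⟩ := hF
  refine ⟨κ, s, fun k => c k * ee N (ξ k * t), ξ, h1, fun x => ?_⟩
  show F (x + t) = _
  rw [h2]
  refine Finset.sum_congr rfl fun k _ => ?_
  rw [mul_add, ee_add]
  ring

/-- sampling -/
theorem BL.sample {c L : ℕ} (hc : 0 < c) (hL : 0 < L) {d : ℤ} (hd : d < L) {F : ℤ → ℂ}
    (hF : BL (c * L) d F) (r : ℤ) :
    ∑ i ∈ range L, F (c * i + r) = ∑ i ∈ range L, F (c * i) := by
  obtain ⟨κ, s, a, ξ, h1, h2⟩ := hF
  have h3 : ∀ t : ℤ, ∑ i ∈ range L, F (c * i + t) =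
      ∑ k ∈ s, a k * ee (c * L) (ξ k * t) * ∑ i ∈ range L, ee L (ξ k * i) := by
    intro t
    have h4 : ∀ i ∈ range L, F (c * i + t) =
        ∑ k ∈ s, a k * ee (c * L) (ξ k * t) * ee L (ξ k * i) := by
      intro i _
      rw [h2]
      refine Finset.sum_congr rfl fun k _ => ?_
      have h5 : ee (c * L) (ξ k * (c * i)) = ee L (ξ k * i) := by
        unfold ee
        congr 1
        have hc' : (c : ℂ) ≠ 0 := by exact_mod_cast hc.ne'
        have hL' : (L : ℂ) ≠ 0 := by exact_mod_cast hL.ne'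
        push_cast
        field_simp
      rw [mul_add, ee_add, h5]
      ring
    rw [Finset.sum_congr rfl h4, Finset.sum_comm]
    refine Finset.sum_congr rfl fun k _ => ?_
    rw [Finset.mul_sum]
  have h0 : ∑ i ∈ range L, F (c * i) = ∑ i ∈ range L, F (c * i + 0) := by simp
  rw [h0, h3 r, h3 0]
  refine Finset.sum_congr rfl fun k hk => ?_
  by_cases h5 : ξ k = 0
  · rw [h5]
    simp
  · rw [geo L hL (ξ k)]
    · ring
    · intro h6
      have h7 := Int.le_of_dvd (abs_pos.2 h5) ((dvd_abs _ _).2 h6)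
      have h8 := h1 k hk
      linarith

/-- sums over the multiples of `c` are exact -/
theorem BL.exact {c L : ℕ} (hc : 0 < c) (hL : 0 < L) {d : ℤ} (hd : d < L) {F : ℤ → ℂ}
    (hF : BL (c * L) d F) :
    ∑ x ∈ range (c * L), F x = c * ∑ i ∈ range L, F (c * i) := by
  have h1 := sum_decomp (fun x : ℕ => F x) c L
  rw [h1, Finset.sum_comm]
  have h2 : ∀ r ∈ range c, ∑ i ∈ range L, F (((c * i + r : ℕ) : ℤ)) = ∑ i ∈ range L, F (c * i) := by
    intro r _
    rw [← hF.sample hc hL hd r]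
    refine Finset.sum_congr rfl fun i _ => ?_
    push_cast
    rfl
  rw [Finset.sum_congr rfl h2, Finset.sum_const, card_range, nsmul_eq_mul]

/-! ### the kernel -/

/-- Parseval -/
theorem parseval (Q n : ℕ) (hn : n ≤ Q) (hQ : 0 < Q) (b : ℕ → ℝ) :
    ∑ x ∈ range Q, ‖∑ j ∈ range n, (b j : ℂ) * ee Q x ^ j‖ ^ 2 = Q * ∑ j ∈ range n, b j ^ 2 := by
  have h1 : ∀ x : ℕ, ((‖∑ j ∈ range n, (b j : ℂ) * ee Q x ^ j‖ ^ 2 : ℝ) : ℂ) =
      ∑ j ∈ range n, ∑ k ∈ range n, (b j : ℂ) * b k * ee Q (((j : ℤ) - k) * x) := by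
    intro x
    push_cast
    rw [← Complex.mul_conj', map_sum, Finset.sum_mul_sum]
    refine Finset.sum_congr rfl fun j _ => Finset.sum_congr rfl fun k _ => ?_
    rw [map_mul, map_pow, ee_conj, ee_pow, ee_pow, Complex.conj_ofReal]
    have h2 : ee Q (((j : ℤ) - k) * x) = ee Q (j * x) * ee Q (k * -x) := by
      rw [← ee_add]
      congr 1
      ring
    rw [h2]
    ring
  have h3 : ((∑ x ∈ range Q, ‖∑ j ∈ range n, (b j : ℂ) * ee Q x ^ j‖ ^ 2 : ℝ) : ℂ) =
      ((Q * ∑ j ∈ range n, b j ^ 2 : ℝ) : ℂ) := by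
    rw [Complex.ofReal_sum, Finset.sum_congr rfl fun x _ => h1 x, Finset.sum_comm]
    push_cast
    rw [Finset.mul_sum]
    refine Finset.sum_congr rfl fun j hj => ?_
    rw [Finset.sum_comm, Finset.sum_eq_single j]
    · rw [sub_self]
      simp only [zero_mul, ee_zero, mul_one, Finset.sum_const, card_range, nsmul_eq_mul]
      ring
    · intro k hk hkj
      rw [← Finset.mul_sum, geo Q hQ, mul_zero]
      intro h4
      rw [Finset.mem_range] at hj hk
      have h5 : (j : ℤ) - k ≠ 0 := by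
        intro h6
        apply hkj
        omega
      have h7 := Int.le_of_dvd (abs_pos.2 h5) ((dvd_abs _ _).2 h4)
      have h8 : |(j : ℤ) - k| < Q := by
        rw [abs_lt]
        constructor <;> omega
      omega
    · exact fun h => absurd hj h
  exact_mod_cast h3

theorem sum1 (N : ℕ) (y : ℝ) : ∑ j ∈ range N, (((j : ℝ) + 1) * (y - j)) ^ 2 =
    ((N - 1) * N * (2 * N - 1) * (3 * N ^ 2 - 3 * N - 1)) / 30 +
    (2 - 2 * y) * (N * (N - 1) / 2) ^ 2 + (1 - 4 * y + y ^ 2) * ((N - 1) * N * (2 * N - 1) / 6) +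
    (2 * y ^ 2 - 2 * y) * (N * (N - 1) / 2) + y ^ 2 * N := by
  induction N with
  | zero => simp
  | succ N ih =>
    rw [Finset.sum_range_succ, ih]
    push_cast
    ring

theorem sum2 (N : ℕ) (y : ℝ) : ∑ j ∈ range N, (y - 2 * (j : ℝ)) ^ 2 =
    y ^ 2 * N - 4 * y * (N * (N - 1) / 2) + 4 * ((N - 1) * N * (2 * N - 1) / 6) := by
  induction N with
  | zero => simp
  | succ N ih =>
    rw [Finset.sum_range_succ, ih]
    push_cast
    ring

/-- the polynomial -/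
noncomputable def PP (R : ℕ) (z : ℂ) : ℂ :=
  ∑ j ∈ range R, (((((j : ℝ) + 1) * ((R : ℝ) - j) : ℝ)) : ℂ) * z ^ j

theorem PP_mul (R : ℕ) (z : ℂ) : (1 - z) * PP R z =
    ∑ j ∈ range (R + 1), (((((R : ℝ) - 2 * (j : ℝ)) : ℝ)) : ℂ) * z ^ j := by
  have key : ∀ (N : ℕ) (y : ℂ), (1 - z) * ∑ j ∈ range N, ((j + 1) * (y - j)) * z ^ j =
      ∑ j ∈ range N, (y - 2 * j) * z ^ j - N * (y - N + 1) * z ^ N := by
    intro N y
    induction N with
    | zero => simp
    | succ N ih =>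
      rw [Finset.sum_range_succ, mul_add, ih, Finset.sum_range_succ, pow_succ]
      push_cast
      ring
  unfold PP
  have h := key R (R : ℂ)
  push_cast
  rw [h, Finset.sum_range_succ]
  ring

/-- the kernel without normalisation -/
noncomputable def w0 (R Q : ℕ) (x : ℤ) : ℝ := ‖PP R (ee Q x)‖ ^ 2

theorem w0_nonneg (R Q : ℕ) (x : ℤ) : 0 ≤ w0 R Q x := sq_nonneg _

theorem w0_per (R Q : ℕ) (hQ : 0 < Q) (x : ℤ) : w0 R Q (x + Q) = w0 R Q x := by
  unfold w0
  have h := ee_add_mul Q hQ x 1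
  rw [mul_one] at h
  rw [h]

theorem w0_BL (R Q : ℕ) (_hR : 0 < R) : BL Q (R - 1) (fun x => (w0 R Q x : ℂ)) := by
  refine ⟨ℕ × ℕ, range R ×ˢ range R, fun q => ((((q.1 : ℝ) + 1) * ((R : ℝ) - q.1) : ℝ) : ℂ) *
    ((((q.2 : ℝ) + 1) * ((R : ℝ) - q.2) : ℝ) : ℂ), fun q => (q.1 : ℤ) - q.2, ?_, ?_⟩
  · intro q hq
    obtain ⟨h1, h2⟩ := Finset.mem_product.1 hq
    rw [Finset.mem_range] at h1 h2
    show |(q.1 : ℤ) - q.2| ≤ R - 1
    rw [abs_le]
    constructor <;> omega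
  · intro x
    show ((w0 R Q x : ℝ) : ℂ) = _
    unfold w0 PP
    push_cast
    rw [← Complex.mul_conj', map_sum, Finset.sum_mul_sum, Finset.sum_product]
    refine Finset.sum_congr rfl fun j _ => Finset.sum_congr rfl fun k _ => ?_
    show _ = _ * ee Q (((j : ℤ) - k) * x)
    have h2 : ee Q (((j : ℤ) - k) * x) = ee Q (j * x) * ee Q (k * -x) := by
      rw [← ee_add]
      congr 1
      ring
    have h3 : conj ((k : ℂ) + 1) = (k : ℂ) + 1 := by
      rw [map_add, map_one, Complex.conj_natCast]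
    have h4 : conj ((R : ℂ) - k) = (R : ℂ) - k := by
      rw [map_sub, Complex.conj_natCast, Complex.conj_natCast]
    rw [map_mul, map_mul, map_pow, ee_conj, ee_pow, ee_pow, h2, h3, h4]
    ring

/-- **the kernel** -/
theorem kernel (c R : ℕ) (hc : 0 < c) (hR : 0 < R) : ∃ w : ℤ → ℝ, (∀ x, 0 ≤ w x) ∧
    (∀ x, w (x + ((c * (2 * R) : ℕ) : ℤ)) = w x) ∧ ∑ i ∈ range (c * (2 * R)), w i = 1 ∧
    (∀ r : ℤ, ∑ i ∈ range (2 * R), w (c * i + r) = 1 / c) ∧
    (∀ x₁ x₂ : ℤ, ∑ i ∈ range (2 * R), w (c * i + x₁) * w (c * i + x₂) =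
      1 / c * ∑ x ∈ range (c * (2 * R)), w (x + x₁) * w (x + x₂)) ∧
    ∑ x ∈ Finset.Ioc (-((c * R : ℕ) : ℤ)) (c * R : ℕ), w x * |(x : ℝ)| ≤ 127 / 80 * c := by
  set Q := c * (2 * R) with hQd
  have hQ : 0 < Q := by positivity
  have hcr : (0 : ℝ) < c := by exact_mod_cast hc
  have hRr : (1 : ℝ) ≤ R := by exact_mod_cast hR
  have hQr : (Q : ℝ) = c * (2 * R) := by rw [hQd]; push_cast; ring
  have hRQ : R + 1 ≤ Q := by
    rw [hQd]
    nlinarith
  -- the total mass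
  set S : ℝ := ∑ i ∈ range Q, w0 R Q i with hS
  have hS1 : S = Q * (R * (R + 1) * (R + 2) * (R ^ 2 + 2 * R + 2) / 30) := by
    rw [hS]
    have h1 := parseval Q R (by omega) hQ (fun j => ((j : ℝ) + 1) * ((R : ℝ) - j))
    have h2 : ∑ i ∈ range Q, w0 R Q i =
        ∑ x ∈ range Q, ‖∑ j ∈ range R, (((((j : ℝ) + 1) * ((R : ℝ) - j) : ℝ)) : ℂ) * ee Q x ^ j‖ ^ 2 :=
      rfl
    rw [h2, h1, sum1]
    congr 1
    ring
  have hSpos : 0 < S := by
    rw [hS1]
    have : (0 : ℝ) < Q := by exact_mod_cast hQ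
    positivity
  -- the second moment
  have hM : ∑ i ∈ range Q, w0 R Q i * ‖1 - ee Q i‖ ^ 2 = Q * (R * (R + 1) * (R + 2) / 3) := by
    have h1 := parseval Q (R + 1) hRQ hQ (fun j => (R : ℝ) - 2 * (j : ℝ))
    have h2 : ∑ i ∈ range Q, w0 R Q i * ‖1 - ee Q i‖ ^ 2 =
        ∑ x ∈ range Q, ‖∑ j ∈ range (R + 1), (((((R : ℝ) - 2 * (j : ℝ)) : ℝ)) : ℂ) * ee Q x ^ j‖ ^ 2 := by
      refine Finset.sum_congr rfl fun i _ => ?_
      rw [← PP_mul, norm_mul, mul_pow]
      unfold w0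
      ring
    rw [h2, h1, sum2]
    push_cast
    congr 1
    ring
  have hBL := w0_BL R Q hR
  have hL : 0 < 2 * R := by omega
  -- exactness for the kernel
  have hex1 : ∀ r : ℤ, ∑ i ∈ range (2 * R), w0 R Q (c * i + r) = 1 / c * S := by
    intro r
    have h1 := BL.exact hc hL (by push_cast; omega : ((R : ℤ) - 1) < ((2 * R : ℕ) : ℤ))
      (hBL.shift r)
    have h2 := hBL.sample hc hL (by push_cast; omega : ((R : ℤ) - 1) < ((2 * R : ℕ) : ℤ)) r
    have h3 := BL.exact hc hL (by push_cast; omega : ((R : ℤ) - 1) < ((2 * R : ℕ) : ℤ)) hBL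
    rw [← h2] at h3
    have h4 : S = c * ∑ i ∈ range (2 * R), w0 R Q (c * i + r) := by
      rw [hS]
      exact_mod_cast h3
    rw [h4]
    field_simp
  have hex2 : ∀ x₁ x₂ : ℤ, ∑ i ∈ range (2 * R), w0 R Q (c * i + x₁) * w0 R Q (c * i + x₂) =
      1 / c * ∑ x ∈ range Q, w0 R Q (x + x₁) * w0 R Q (x + x₂) := by
    intro x₁ x₂
    have h1 := BL.exact hc hL
      (by push_cast; omega : (((R : ℤ) - 1) + ((R : ℤ) - 1)) < ((2 * R : ℕ) : ℤ))
      ((hBL.shift x₁).mul (hBL.shift x₂))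
    have h2 : ∑ x ∈ range Q, w0 R Q (x + x₁) * w0 R Q (x + x₂) =
        c * ∑ i ∈ range (2 * R), w0 R Q (c * i + x₁) * w0 R Q (c * i + x₂) := by
      exact_mod_cast h1
    rw [h2]
    field_simp
  refine ⟨fun x => w0 R Q x / S, fun x => div_nonneg (w0_nonneg R Q x) hSpos.le, fun x => ?_, ?_,
    fun r => ?_, fun x₁ x₂ => ?_, ?_⟩
  · show w0 R Q (x + (Q : ℤ)) / S = w0 R Q x / S
    rw [w0_per R Q hQ]
  · rw [← Finset.sum_div]
    exact div_self hSpos.ne'
  · rw [← Finset.sum_div, hex1 r, mul_div_assoc, div_self hSpos.ne', mul_one]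
  · have h1 : ∀ a b : ℝ, a / S * (b / S) = (a * b) / S ^ 2 := by
      intro a b
      field_simp
    simp only [h1]
    rw [← Finset.sum_div, ← Finset.sum_div, hex2 x₁ x₂]
    ring
  · -- the first moment
    have hper : ∀ x : ℤ, w0 R Q (x + Q) * ‖1 - ee Q (x + Q)‖ ^ 2 =
        w0 R Q x * ‖1 - ee Q x‖ ^ 2 := by
      intro x
      rw [w0_per R Q hQ]
      have h := ee_add_mul Q hQ x 1
      rw [mul_one] at h
      rw [h]
    have hdom : (-((c * R : ℕ) : ℤ)) + Q = ((c * R : ℕ) : ℤ) := by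
      rw [hQd]
      push_cast
      ring
    have h1 := per_Ioc (fun x => w0 R Q x * ‖1 - ee Q x‖ ^ 2) Q hper (-((c * R : ℕ) : ℤ))
    rw [hdom, hM] at h1
    have h2 := per_Ioc (fun x => w0 R Q x) Q (w0_per R Q hQ) (-((c * R : ℕ) : ℤ))
    rw [hdom] at h2
    have hQr0 : (0 : ℝ) < Q := by exact_mod_cast hQ
    -- pointwise
    have h3 : ∀ x ∈ Finset.Ioc (-((c * R : ℕ) : ℤ)) (c * R : ℕ),
        w0 R Q x * ((x : ℝ) ^ 2 * (16 / Q ^ 2)) ≤ w0 R Q x * ‖1 - ee Q x‖ ^ 2 := by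
      intro x hx
      rw [Finset.mem_Ioc] at hx
      refine mul_le_mul_of_nonneg_left ?_ (w0_nonneg R Q x)
      have h4 : ‖1 - ee Q x‖ ^ 2 = 2 - 2 * Real.cos (2 * Real.pi * x / Q) := by
        rw [← Complex.normSq_eq_norm_sq, Complex.normSq_sub, Complex.normSq_one,
          Complex.normSq_eq_norm_sq, ee_norm, one_mul, Complex.conj_re, ee_re]
        ring
      rw [h4]
      have hxr : |(x : ℝ)| ≤ c * R := by
        rw [abs_le]
        constructor
        · have : -((c * R : ℕ) : ℤ) ≤ x := hx.1.le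
          exact_mod_cast this
        · exact_mod_cast hx.2
      have h5 : |2 * Real.pi * x / Q| ≤ Real.pi := by
        rw [abs_div, abs_mul, abs_mul, abs_two, abs_of_pos Real.pi_pos, abs_of_pos hQr0,
          div_le_iff₀ hQr0, hQr]
        nlinarith [Real.pi_pos]
      have h6 := Real.cos_le_one_sub_mul_cos_sq h5
      have h7 : 2 / Real.pi ^ 2 * (2 * Real.pi * x / Q) ^ 2 = (x : ℝ) ^ 2 * (8 / Q ^ 2) := by
        have := Real.pi_ne_zero
        field_simp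
        ring
      rw [h7] at h6
      have h8 : (x : ℝ) ^ 2 * (16 / Q ^ 2) = 2 * ((x : ℝ) ^ 2 * (8 / Q ^ 2)) := by ring
      rw [h8]
      linarith
    have h4 := Finset.sum_le_sum h3
    rw [h1] at h4
    have h5 : ∑ x ∈ Finset.Ioc (-((c * R : ℕ) : ℤ)) (c * R : ℕ), w0 R Q x * ((x : ℝ) ^ 2 * (16 / Q ^ 2)) =
        (∑ x ∈ Finset.Ioc (-((c * R : ℕ) : ℤ)) (c * R : ℕ), w0 R Q x * (x : ℝ) ^ 2) * (16 / Q ^ 2) := by
      rw [Finset.sum_mul]
      exact Finset.sum_congr rfl fun x _ => by ring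
    rw [h5] at h4
    -- the second moment is at most `5/2 c²`
    have h6 : ∑ x ∈ Finset.Ioc (-((c * R : ℕ) : ℤ)) (c * R : ℕ), w0 R Q x * (x : ℝ) ^ 2 ≤
        5 / 2 * c ^ 2 * S := by
      have h7 : ∑ x ∈ Finset.Ioc (-((c * R : ℕ) : ℤ)) (c * R : ℕ), w0 R Q x * (x : ℝ) ^ 2 ≤
          Q * (R * (R + 1) * (R + 2) / 3) * (Q ^ 2 / 16) := by
        rw [← div_le_iff₀ (by positivity)]
        refine le_trans (le_of_eq ?_) h4
        field_simp
      refine h7.trans ?_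
      rw [hS1]
      have h8 : (Q : ℝ) * (R * (R + 1) * (R + 2) / 3) * (Q ^ 2 / 16) =
          Q * (R * (R + 1) * (R + 2)) * (c ^ 2 * R ^ 2 / 12) := by
        rw [show ((Q : ℝ) ^ 2 / 16) = c ^ 2 * R ^ 2 / 4 by rw [hQr]; ring]
        ring
      have h9 : 5 / 2 * (c : ℝ) ^ 2 * (Q * (R * (R + 1) * (R + 2) * (R ^ 2 + 2 * R + 2) / 30)) =
          Q * (R * (R + 1) * (R + 2)) * (c ^ 2 * (R ^ 2 + 2 * R + 2) / 12) := by ring
      rw [h8, h9]
      refine mul_le_mul_of_nonneg_left ?_ (by positivity)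
      have h10 : (c : ℝ) ^ 2 * R ^ 2 ≤ c ^ 2 * (R ^ 2 + 2 * R + 2) :=
        mul_le_mul_of_nonneg_left (by linarith) (by positivity)
      linarith
    -- conclusion
    have h7 : ∀ x ∈ Finset.Ioc (-((c * R : ℕ) : ℤ)) (c * R : ℕ), w0 R Q x / S * |(x : ℝ)| ≤
        w0 R Q x * (x : ℝ) ^ 2 * (5 / (16 * c * S)) + w0 R Q x * (4 * c / (5 * S)) := by
      intro x _
      have h8 : |(x : ℝ)| ≤ (x : ℝ) ^ 2 * (5 / (16 * c)) + 4 * c / 5 := by
        have h9 := sq_nonneg (|(x : ℝ)| * 5 - 8 * c)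
        have h10 : |(x : ℝ)| ^ 2 = (x : ℝ) ^ 2 := sq_abs _
        rw [← h10]
        have h11 : |(x : ℝ)| ^ 2 * (5 / (16 * c)) + 4 * c / 5 - |(x : ℝ)| =
            (|(x : ℝ)| * 5 - 8 * c) ^ 2 / (80 * c) := by
          field_simp
          ring
        have h12 : 0 ≤ (|(x : ℝ)| * 5 - 8 * c) ^ 2 / (80 * c) := by positivity
        linarith
      calc w0 R Q x / S * |(x : ℝ)| ≤ w0 R Q x / S * ((x : ℝ) ^ 2 * (5 / (16 * c)) + 4 * c / 5) :=
            mul_le_mul_of_nonneg_left h8 (div_nonneg (w0_nonneg R Q x) hSpos.le)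
        _ = _ := by field_simp
    refine (Finset.sum_le_sum h7).trans ?_
    rw [Finset.sum_add_distrib, ← Finset.sum_mul, ← Finset.sum_mul, h2]
    have h8 : (∑ x ∈ Finset.Ioc (-((c * R : ℕ) : ℤ)) (c * R : ℕ), w0 R Q x * (x : ℝ) ^ 2) *
        (5 / (16 * c * S)) ≤ 5 / 2 * c ^ 2 * S * (5 / (16 * c * S)) :=
      mul_le_mul_of_nonneg_right h6 (by positivity)
    have h9 : 5 / 2 * (c : ℝ) ^ 2 * S * (5 / (16 * c * S)) = 25 / 32 * c := by
      field_simp
      ring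
    have h10 : (∑ i ∈ range Q, w0 R Q i) * (4 * c / (5 * S)) = 4 / 5 * c := by
      rw [← hS]
      field_simp
    rw [h9] at h8
    rw [h10]
    linarith

end Pool.Agent.Work.MP_62db8e_nt.Sw
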