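import Pool.Agent.Work.MP_62db8e_nt.Sw.Vertex

set_option autoImplicit false

/-! Rounding a function `p : {1..2n} → [0,1]` to a set: all the correlations `∑ x_i (1 - x_(i+k))` grow by
at most `4 √(2 n log (8n+2))`. -/

namespace Pool.Agent.Work.MP_62db8e_nt.Sw

open Finset

/-- left ends of the pairs `(i, i + k)` of one class -/
def EE (I : Finset ℤ) (k c : ℤ) : Finset ℤ := I.filter (fun i => i + k ∈ I ∧ (i / |k|) % 2 = c)

/-- the correlation on one class -/
noncomputable def SS (I : Finset ℤ) (k c : ℤ) (x : ℤ → ℝ) : ℝ :=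
  ∑ i ∈ EE I k c, x i * (1 - x (i + k))

/-- the correlation -/
noncomputable def SF (I : Finset ℤ) (k : ℤ) (x : ℤ → ℝ) : ℝ :=
  ∑ i ∈ I.filter (fun i => i + k ∈ I), x i * (1 - x (i + k))

theorem SF_eq (I : Finset ℤ) (k : ℤ) (x : ℤ → ℝ) : SF I k x = SS I k 0 x + SS I k 1 x := by
  unfold SF SS EE
  rw [← Finset.sum_union]
  · refine Finset.sum_congr ?_ fun _ _ => rfl
    ext i
    simp only [Finset.mem_filter, Finset.mem_union]
    have h : (i / |k|) % 2 = 0 ∨ (i / |k|) % 2 = 1 := Int.emod_two_eq_zero_or_one _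
    tauto
  · rw [Finset.disjoint_left]
    intro i h1 h2
    rw [Finset.mem_filter] at h1 h2
    have h3 := h1.2.2
    have h4 := h2.2.2
    omega

theorem pair_disj (I : Finset ℤ) (k c : ℤ) (hk : k ≠ 0) (i j : ℤ) (hi : i ∈ EE I k c)
    (hj : j ∈ EE I k c) : i ≠ j + k := by
  intro h
  unfold EE at hi hj
  rw [Finset.mem_filter] at hi hj
  have h1 := hi.2.2
  have h2 := hj.2.2
  have hpos : |k| ≠ 0 := abs_ne_zero.2 hk
  rcases abs_choice k with h3 | h3
  · rw [h] at h1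
    have h4 : (j + k) / |k| = j / |k| + 1 := by
      rw [h3] at hpos ⊢
      exact Int.add_ediv_of_dvd_right (dvd_refl k) |>.trans (by rw [Int.ediv_self hk])
    rw [h4] at h1
    omega
  · rw [h] at h1
    have h4 : (j + k) / |k| = j / |k| - 1 := by
      have h5 : j + k = j + (-1) * |k| := by rw [h3]; ring
      rw [h5, Int.add_mul_ediv_right _ _ hpos]
      ring
    rw [h4] at h1
    omega

/-- one term of the potential at the start -/
theorem term_le {κ : Type} (E : Finset κ) (q : κ → ℝ) (s : ℝ) (L : ℕ) (hs0 : 0 ≤ s) (hs1 : s ≤ 1)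
    (hq : ∀ e ∈ E, 0 ≤ q e ∧ q e ≤ 1) (hL : E.card ≤ L) :
    Real.exp (-(s * ∑ e ∈ E, q e)) * ∏ e ∈ E, (1 + (Real.exp s - 1) * q e) ≤
      Real.exp (s ^ 2 * L) := by
  have hl : 0 ≤ Real.exp s - 1 := by linarith [Real.one_le_exp hs0]
  have h1 : ∏ e ∈ E, (1 + (Real.exp s - 1) * q e) ≤ ∏ e ∈ E, Real.exp ((Real.exp s - 1) * q e) := by
    refine Finset.prod_le_prod (fun e he => ?_) fun e _ => ?_
    · have := mul_nonneg hl (hq e he).1
      linarith
    · have := Real.add_one_le_exp ((Real.exp s - 1) * q e)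
      linarith
  have h2 : Real.exp s - 1 - s ≤ s ^ 2 := by
    have := Real.abs_exp_sub_one_sub_id_le (x := s) (by rw [abs_of_nonneg hs0]; exact hs1)
    exact (le_abs_self _).trans this
  have h3 : 0 ≤ ∑ e ∈ E, q e := Finset.sum_nonneg fun e he => (hq e he).1
  have h4 : ∑ e ∈ E, q e ≤ L := by
    calc ∑ e ∈ E, q e ≤ ∑ e ∈ E, (1 : ℝ) := Finset.sum_le_sum fun e he => (hq e he).2
      _ = (E.card : ℝ) := by rw [Finset.sum_const, nsmul_eq_mul, mul_one]
      _ ≤ L := by exact_mod_cast hL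
  calc Real.exp (-(s * ∑ e ∈ E, q e)) * ∏ e ∈ E, (1 + (Real.exp s - 1) * q e)
      ≤ Real.exp (-(s * ∑ e ∈ E, q e)) * ∏ e ∈ E, Real.exp ((Real.exp s - 1) * q e) :=
        mul_le_mul_of_nonneg_left h1 (Real.exp_pos _).le
    _ = Real.exp ((Real.exp s - 1 - s) * ∑ e ∈ E, q e) := by
        rw [← Real.exp_sum, ← Finset.mul_sum, ← Real.exp_add]
        congr 1
        ring
    _ ≤ Real.exp (s ^ 2 * L) := by
        refine Real.exp_le_exp.2 ?_
        calc (Real.exp s - 1 - s) * ∑ e ∈ E, q e ≤ s ^ 2 * ∑ e ∈ E, q e :=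
              mul_le_mul_of_nonneg_right h2 h3
          _ ≤ s ^ 2 * L := mul_le_mul_of_nonneg_left h4 (sq_nonneg s)

/-- one term of the potential at the end -/
theorem term_eq {κ : Type} (E : Finset κ) (y : κ → ℝ) (s m : ℝ) (hy : ∀ e ∈ E, y e = 0 ∨ y e = 1) :
    Real.exp (-(s * m)) * ∏ e ∈ E, (1 + (Real.exp s - 1) * y e) =
      Real.exp (s * (∑ e ∈ E, y e - m)) := by
  have h1 : ∏ e ∈ E, (1 + (Real.exp s - 1) * y e) = ∏ e ∈ E, Real.exp (s * y e) := by
    refine Finset.prod_congr rfl fun e he => ?_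
    rcases hy e he with h | h <;> rw [h] <;> simp
  rw [h1, ← Real.exp_sum, ← Finset.mul_sum, ← Real.exp_add]
  congr 1
  ring

/-- the classes -/
noncomputable def GG (n : ℕ) : Finset (ℤ × ℤ) := (Finset.Icc (-(2 * n : ℤ)) (2 * n)).erase 0 ×ˢ {0, 1}

theorem card_GG (n : ℕ) : (GG n).card = 8 * n := by
  unfold GG
  rw [Finset.card_product, Finset.card_erase_of_mem (by rw [Finset.mem_Icc]; omega), Int.card_Icc]
  have h : (({0, 1} : Finset ℤ)).card = 2 := rfl
  rw [h]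
  omega

/-- **rounding** -/
theorem round (n : ℕ) (p : ℤ → ℝ) (hp : ∀ i ∈ Finset.Icc (1 : ℤ) (2 * n), 0 ≤ p i ∧ p i ≤ 1) (s : ℝ)
    (hs0 : 0 < s) (hs1 : s ≤ 1) :
    ∃ w : ℤ → ℝ, (∀ i ∈ Finset.Icc (1 : ℤ) (2 * n), w i = 0 ∨ w i = 1) ∧
      (∀ k : ℤ, k ≠ 0 → SF (Finset.Icc 1 (2 * n)) k w ≤ SF (Finset.Icc 1 (2 * n)) k p +
        2 * (Real.log (8 * n + 2) / s + 2 * n * s)) ∧
      |∑ i ∈ Finset.Icc (1 : ℤ) (2 * n), w i - ∑ i ∈ Finset.Icc (1 : ℤ) (2 * n), p i| ≤
        Real.log (8 * n + 2) / s + 2 * n * s := by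
  classical
  set I : Finset ℤ := Finset.Icc 1 (2 * n) with hI
  have hcard : I.card = 2 * n := by
    rw [hI, Int.card_Icc]
    omega
  set l : ℝ := Real.exp s - 1 with hl
  -- the potential
  let T : ℤ × ℤ → (ℤ → ℝ) → ℝ := fun g x =>
    Real.exp (-(s * SS I g.1 g.2 p)) * ∏ i ∈ EE I g.1 g.2, (1 + l * (x i * (1 - x (i + g.1))))
  let T1 : (ℤ → ℝ) → ℝ := fun x => Real.exp (-(s * ∑ i ∈ I, p i)) * ∏ i ∈ I, (1 + l * x i)
  let T2 : (ℤ → ℝ) → ℝ := fun x =>
    Real.exp (-(s * ∑ i ∈ I, (1 - p i))) * ∏ i ∈ I, ((1 + l) + (-l) * x i)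
  let G : (ℤ → ℝ) → ℝ := fun x => (∑ g ∈ GG n, T g x) + (T1 x + T2 x)
  have hmem : ∀ g ∈ GG n, g.1 ≠ 0 := by
    intro g hg
    unfold GG at hg
    exact Finset.ne_of_mem_erase (Finset.mem_product.1 hg).1
  have hAff : Aff G := by
    refine Aff.add (Aff.sum (GG n) T fun g hg => ?_) (Aff.add ?_ ?_)
    · refine Aff.const_mul _ ?_
      refine aff_prod (EE I g.1 g.2) (fun i => i) (fun i => i + g.1) l ?_ ?_ ?_
      · exact fun e _ f _ h => h
      · intro e _ f _ h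
        have h' : e + g.1 = f + g.1 := h
        omega
      · exact fun e he f hf => pair_disj I g.1 g.2 (hmem g hg) e f he hf
    · exact Aff.const_mul _ (aff_prod1 I 1 l)
    · exact Aff.const_mul _ (aff_prod1 I (1 + l) (-l))
  obtain ⟨w, hw1, -, hw3⟩ := vertex G hAff I p hp
  have hl0 : 0 ≤ l := by
    rw [hl]
    linarith [Real.one_le_exp hs0.le]
  -- memberships
  have hEE : ∀ g : ℤ × ℤ, ∀ i ∈ EE I g.1 g.2, i ∈ I ∧ i + g.1 ∈ I := by
    intro g i hi
    unfold EE at hi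
    rw [Finset.mem_filter] at hi
    exact ⟨hi.1, hi.2.1⟩
  have hEc : ∀ g : ℤ × ℤ, (EE I g.1 g.2).card ≤ 2 * n := by
    intro g
    rw [← hcard]
    exact Finset.card_filter_le _ _
  -- the start
  have hstart : G p ≤ (8 * n + 2) * Real.exp (s ^ 2 * ((2 * n : ℕ) : ℝ)) := by
    have h1 : ∀ g ∈ GG n, T g p ≤ Real.exp (s ^ 2 * ((2 * n : ℕ) : ℝ)) := by
      intro g _
      refine term_le (EE I g.1 g.2) (fun i => p i * (1 - p (i + g.1))) s (2 * n) hs0.le hs1
        (fun i hi => ?_) (hEc g)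
      obtain ⟨h2, h3⟩ := hEE g i hi
      obtain ⟨h4, h5⟩ := hp i h2
      obtain ⟨h6, h7⟩ := hp _ h3
      exact ⟨mul_nonneg h4 (by linarith), mul_le_one₀ h5 (by linarith) (by linarith)⟩
    have h2 : T1 p ≤ Real.exp (s ^ 2 * ((2 * n : ℕ) : ℝ)) :=
      term_le I p s (2 * n) hs0.le hs1 hp hcard.le
    have h3 : T2 p ≤ Real.exp (s ^ 2 * ((2 * n : ℕ) : ℝ)) := by
      have h4 := term_le I (fun i => 1 - p i) s (2 * n) hs0.le hs1
        (fun i hi => ⟨by linarith [(hp i hi).2], by linarith [(hp i hi).1]⟩) hcard.le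
      refine le_trans (le_of_eq ?_) h4
      show Real.exp _ * _ = _
      congr 1
      refine Finset.prod_congr rfl fun i _ => ?_
      rw [← hl]
      ring
    calc G p = (∑ g ∈ GG n, T g p) + (T1 p + T2 p) := rfl
      _ ≤ (∑ g ∈ GG n, Real.exp (s ^ 2 * ((2 * n : ℕ) : ℝ))) +
          (Real.exp (s ^ 2 * ((2 * n : ℕ) : ℝ)) + Real.exp (s ^ 2 * ((2 * n : ℕ) : ℝ))) :=
        add_le_add (Finset.sum_le_sum h1) (add_le_add h2 h3)
      _ = (8 * n + 2) * Real.exp (s ^ 2 * ((2 * n : ℕ) : ℝ)) := by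
        rw [Finset.sum_const, card_GG, nsmul_eq_mul]
        push_cast
        ring
  -- all terms are nonnegative at `w`
  have hw01 : ∀ i ∈ I, 0 ≤ w i ∧ w i ≤ 1 := by
    intro i hi
    rcases hw1 i hi with h | h <;> rw [h] <;> norm_num
  have hTn : ∀ g ∈ GG n, 0 ≤ T g w := by
    intro g _
    refine mul_nonneg (Real.exp_pos _).le (Finset.prod_nonneg fun i hi => ?_)
    obtain ⟨h2, h3⟩ := hEE g i hi
    have h4 := mul_nonneg hl0 (mul_nonneg (hw01 i h2).1 (sub_nonneg.2 (hw01 _ h3).2))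
    linarith
  have hT1n : 0 ≤ T1 w := by
    refine mul_nonneg (Real.exp_pos _).le (Finset.prod_nonneg fun i hi => ?_)
    have h4 := mul_nonneg hl0 (hw01 i hi).1
    linarith
  have hT2n : 0 ≤ T2 w := by
    refine mul_nonneg (Real.exp_pos _).le (Finset.prod_nonneg fun i hi => ?_)
    have h4 := mul_nonneg hl0 (sub_nonneg.2 (hw01 i hi).2)
    linarith
  have hsum0 : 0 ≤ ∑ g ∈ GG n, T g w := Finset.sum_nonneg hTn
  have hG : G w = (∑ g ∈ GG n, T g w) + (T1 w + T2 w) := rfl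
  have hend : G w ≤ (8 * n + 2) * Real.exp (s ^ 2 * ((2 * n : ℕ) : ℝ)) := hw3.trans hstart
  -- from a term to a deviation
  have hdev : ∀ X : ℝ, Real.exp (s * X) ≤ G w → X ≤ Real.log (8 * n + 2) / s + 2 * n * s := by
    intro X hX
    have hpos : (0 : ℝ) < 8 * n + 2 := by positivity
    have h1 : Real.exp (s * X) ≤
        Real.exp (Real.log (8 * n + 2) + s ^ 2 * ((2 * n : ℕ) : ℝ)) := by
      rw [Real.exp_add, Real.exp_log hpos]
      exact hX.trans hend
    have h2 := Real.exp_le_exp.1 h1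
    push_cast at h2
    have h3 : X ≤ (Real.log (8 * n + 2) + s ^ 2 * (2 * n)) / s := by
      rw [le_div_iff₀ hs0]
      linarith
    refine h3.trans (le_of_eq ?_)
    field_simp
  have hcls : ∀ g ∈ GG n, SS I g.1 g.2 w - SS I g.1 g.2 p ≤ Real.log (8 * n + 2) / s + 2 * n * s := by
    intro g hg
    refine hdev _ ?_
    have h1 : T g w = Real.exp (s * (SS I g.1 g.2 w - SS I g.1 g.2 p)) := by
      refine term_eq (EE I g.1 g.2) (fun i => w i * (1 - w (i + g.1))) s (SS I g.1 g.2 p)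
        (fun i hi => ?_)
      obtain ⟨h2, h3⟩ := hEE g i hi
      show w i * (1 - w (i + g.1)) = 0 ∨ w i * (1 - w (i + g.1)) = 1
      rcases hw1 i h2 with h | h <;> rcases hw1 _ h3 with h' | h' <;> rw [h, h'] <;> norm_num
    rw [← h1, hG]
    have h2 := Finset.single_le_sum (f := fun g => T g w) hTn hg
    have h3 : T g w ≤ ∑ g ∈ GG n, T g w := h2
    linarith
  refine ⟨w, hw1, ?_, ?_⟩
  · intro k hk
    rw [SF_eq, SF_eq]
    by_cases hk2 : k ∈ Finset.Icc (-(2 * n : ℤ)) (2 * n)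
    · have hm : ∀ c ∈ ({0, 1} : Finset ℤ), (k, c) ∈ GG n := fun c hc =>
        Finset.mem_product.2 ⟨Finset.mem_erase.2 ⟨hk, hk2⟩, hc⟩
      have h0 := hcls (k, 0) (hm 0 (by simp))
      have h1 := hcls (k, 1) (hm 1 (by simp))
      simp only at h0 h1
      linarith
    · have he : ∀ c : ℤ, EE I k c = ∅ := by
        intro c
        rw [Finset.eq_empty_iff_forall_notMem]
        intro i hi
        obtain ⟨h2, h3⟩ := hEE (k, c) i hi
        simp only at h3
        rw [hI, Finset.mem_Icc] at h2 h3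
        rw [Finset.mem_Icc] at hk2
        omega
      unfold SS
      rw [he, he]
      simp only [Finset.sum_empty, add_zero, zero_add]
      have h5 : 0 ≤ Real.log (8 * n + 2) := Real.log_nonneg (by
        have : (0 : ℝ) ≤ n := Nat.cast_nonneg n
        linarith)
      positivity
  · rw [abs_le]
    constructor
    · have h1 : T2 w = Real.exp (s * (∑ i ∈ I, (1 - w i) - ∑ i ∈ I, (1 - p i))) := by
        rw [← term_eq I (fun i => 1 - w i) s (∑ i ∈ I, (1 - p i)) (fun i hi => by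
          rcases hw1 i hi with h | h <;> rw [h] <;> norm_num)]
        show Real.exp _ * _ = _
        congr 1
        refine Finset.prod_congr rfl fun i _ => ?_
        rw [← hl]
        ring
      have h2 := hdev (∑ i ∈ I, (1 - w i) - ∑ i ∈ I, (1 - p i)) (by rw [← h1, hG]; linarith)
      rw [Finset.sum_sub_distrib, Finset.sum_sub_distrib] at h2
      linarith
    · have h1 : T1 w = Real.exp (s * (∑ i ∈ I, w i - ∑ i ∈ I, p i)) :=
        term_eq I w s (∑ i ∈ I, p i) hw1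
      exact hdev _ (by rw [← h1, hG]; linarith)

end Pool.Agent.Work.MP_62db8e_nt.Sw
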