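import Mathlib

set_option autoImplicit false

/-! Rounding a point of the cube to a vertex for functions which are affine in every coordinate. -/

namespace Pool.Agent.Work.MP_62db8e_nt.Sw

open Finset

variable {ι : Type} [DecidableEq ι]

/-- affine in every coordinate -/
def Aff (G : (ι → ℝ) → ℝ) : Prop :=
  ∀ (i : ι) (x : ι → ℝ) (t : ℝ), G (Function.update x i t) =
    (1 - t) * G (Function.update x i 0) + t * G (Function.update x i 1)

theorem Aff.add {G H : (ι → ℝ) → ℝ} (hG : Aff G) (hH : Aff H) : Aff (fun x => G x + H x) := by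
  intro i x t
  show G _ + H _ = _
  rw [hG i x t, hH i x t]
  ring

theorem Aff.const_mul (c : ℝ) {G : (ι → ℝ) → ℝ} (hG : Aff G) : Aff (fun x => c * G x) := by
  intro i x t
  show c * G _ = _
  rw [hG i x t]
  ring

theorem Aff.sum {κ : Type} (s : Finset κ) (G : κ → (ι → ℝ) → ℝ) (h : ∀ k ∈ s, Aff (G k)) :
    Aff (fun x => ∑ k ∈ s, G k x) := by
  intro i x t
  show ∑ k ∈ s, G k _ = (1 - t) * (∑ k ∈ s, G k _) + t * ∑ k ∈ s, G k _
  rw [Finset.mul_sum, Finset.mul_sum, ← Finset.sum_add_distrib]
  exact Finset.sum_congr rfl fun k hk => h k hk i x t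

/-- Round a point of the cube to a vertex. -/
theorem vertex (G : (ι → ℝ) → ℝ) (hG : Aff G) (I : Finset ι) : ∀ p : ι → ℝ,
    (∀ i ∈ I, 0 ≤ p i ∧ p i ≤ 1) →
    ∃ w : ι → ℝ, (∀ i ∈ I, w i = 0 ∨ w i = 1) ∧ (∀ i, i ∉ I → w i = p i) ∧ G w ≤ G p := by
  induction I using Finset.induction_on with
  | empty => exact fun p _ => ⟨p, fun i hi => absurd hi (Finset.notMem_empty i), fun _ _ => rfl, le_rfl⟩
  | insert a I ha ih =>
    intro p hp
    obtain ⟨w, h1, h2, h3⟩ := ih p (fun i hi => hp i (mem_insert_of_mem hi))
    have ha' : w a = p a := h2 a ha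
    obtain ⟨hp0, hp1⟩ := hp a (mem_insert_self a I)
    have h4 := hG a w (w a)
    rw [Function.update_eq_self, ha'] at h4
    have key : ∃ t : ℝ, (t = 0 ∨ t = 1) ∧ G (Function.update w a t) ≤ G w := by
      by_contra hcon
      push Not at hcon
      have h5 := hcon 0 (Or.inl rfl)
      have h6 := hcon 1 (Or.inr rfl)
      rcases lt_or_ge (p a) 1 with h7 | h7
      · have h8 := mul_lt_mul_of_pos_left h5 (sub_pos.2 h7)
        have h9 := mul_le_mul_of_nonneg_left h6.le hp0
        linarith
      · have h8 : p a = 1 := le_antisymm hp1 h7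
        rw [h8] at h4
        linarith
    obtain ⟨t, ht, h5⟩ := key
    refine ⟨Function.update w a t, ?_, ?_, h5.trans h3⟩
    · intro i hi
      by_cases hia : i = a
      · rw [hia, Function.update_self]
        exact ht
      · rw [Function.update_of_ne hia]
        exact h1 i (mem_of_mem_insert_of_ne hi hia)
    · intro i hi
      have hia : i ≠ a := fun h => hi (h ▸ mem_insert_self a I)
      rw [Function.update_of_ne hia]
      exact h2 i (fun h => hi (mem_insert_of_mem h))

/-- products over disjoint pairs -/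
theorem aff_prod {κ : Type} [DecidableEq κ] (E : Finset κ) (a b : κ → ι) (c : ℝ)
    (ha : ∀ e ∈ E, ∀ f ∈ E, a e = a f → e = f) (hb : ∀ e ∈ E, ∀ f ∈ E, b e = b f → e = f)
    (hab : ∀ e ∈ E, ∀ f ∈ E, a e ≠ b f) :
    Aff (fun x : ι → ℝ => ∏ e ∈ E, (1 + c * (x (a e) * (1 - x (b e))))) := by
  intro i x t
  show (∏ e ∈ E, (1 + c * (Function.update x i t (a e) * (1 - Function.update x i t (b e))))) =
    (1 - t) * (∏ e ∈ E, (1 + c * (Function.update x i 0 (a e) * (1 - Function.update x i 0 (b e))))) +
    t * (∏ e ∈ E, (1 + c * (Function.update x i 1 (a e) * (1 - Function.update x i 1 (b e)))))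
  by_cases h : ∃ e ∈ E, a e = i ∨ b e = i
  · obtain ⟨e0, he0, hi⟩ := h
    have hrest : ∀ s : ℝ, (∏ e ∈ E.erase e0,
        (1 + c * (Function.update x i s (a e) * (1 - Function.update x i s (b e))))) =
        ∏ e ∈ E.erase e0, (1 + c * (x (a e) * (1 - x (b e)))) := by
      intro s
      refine Finset.prod_congr rfl fun e he => ?_
      have he' := Finset.mem_of_mem_erase he
      have hne := Finset.ne_of_mem_erase he
      have h1 : a e ≠ i := by
        intro h2
        rcases hi with h3 | h3
        · exact hne (ha e he' e0 he0 (h2.trans h3.symm))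
        · exact hab e he' e0 he0 (h2.trans h3.symm)
      have h1' : b e ≠ i := by
        intro h2
        rcases hi with h3 | h3
        · exact hab e0 he0 e he' (h3.trans h2.symm)
        · exact hne (hb e he' e0 he0 (h2.trans h3.symm))
      rw [Function.update_of_ne h1, Function.update_of_ne h1']
    rw [← Finset.mul_prod_erase E _ he0, ← Finset.mul_prod_erase E _ he0,
      ← Finset.mul_prod_erase E _ he0, hrest, hrest, hrest]
    rcases hi with h3 | h3
    · have h4 : b e0 ≠ i := fun h5 => hab e0 he0 e0 he0 (h3.trans h5.symm)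
      simp only [h3, Function.update_self, Function.update_of_ne h4]
      ring
    · have h4 : a e0 ≠ i := fun h5 => hab e0 he0 e0 he0 (h5.trans h3.symm)
      simp only [h3, Function.update_self, Function.update_of_ne h4]
      ring
  · push Not at h
    have hall : ∀ s : ℝ, (∏ e ∈ E,
        (1 + c * (Function.update x i s (a e) * (1 - Function.update x i s (b e))))) =
        ∏ e ∈ E, (1 + c * (x (a e) * (1 - x (b e)))) := by
      intro s
      refine Finset.prod_congr rfl fun e he => ?_
      rw [Function.update_of_ne (h e he).1, Function.update_of_ne (h e he).2]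
    rw [hall, hall, hall]
    ring

/-- products of one-variable factors -/
theorem aff_prod1 (E : Finset ι) (u v : ℝ) : Aff (fun x : ι → ℝ => ∏ e ∈ E, (u + v * x e)) := by
  intro i x t
  show (∏ e ∈ E, (u + v * Function.update x i t e)) =
    (1 - t) * (∏ e ∈ E, (u + v * Function.update x i 0 e)) +
    t * (∏ e ∈ E, (u + v * Function.update x i 1 e))
  by_cases h : i ∈ E
  · have hrest : ∀ s : ℝ, (∏ e ∈ E.erase i, (u + v * Function.update x i s e)) =
        ∏ e ∈ E.erase i, (u + v * x e) := by
      intro s
      refine Finset.prod_congr rfl fun e he => ?_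
      rw [Function.update_of_ne (Finset.ne_of_mem_erase he)]
    rw [← Finset.mul_prod_erase E _ h, ← Finset.mul_prod_erase E _ h,
      ← Finset.mul_prod_erase E _ h, hrest, hrest, hrest]
    simp only [Function.update_self]
    ring
  · have hall : ∀ s : ℝ, (∏ e ∈ E, (u + v * Function.update x i s e)) =
        ∏ e ∈ E, (u + v * x e) := by
      intro s
      refine Finset.prod_congr rfl fun e he => ?_
      rw [Function.update_of_ne (show e ≠ i from fun h' => h (h' ▸ he))]
    rw [hall, hall, hall]
    ring

end Pool.Agent.Work.MP_62db8e_nt.Sw
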